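import Mathlib

set_option autoImplicit false

namespace Pool.Agent.H.MP_874169_lc

open Finset Function

structure Geo (β : Type) where
  n : ℤ
  S : Finset ℤ
  P : Bool → ℤ → ℤ
  E : Bool → ℤ → ℤ
  lt : ℤ → ℤ → β
  h0 : 0 ∈ S
  hn : n ∈ S
  inv : ∀ s x, 0 ≤ x → x ≤ n → x ∉ S → P s (P s x) = x ∧ E s (P s x) = E s x ∧ (E s x = 1 ∨ E s x = -1) ∧ P s x ≠ x ∧
    0 ≤ P s x ∧ P s x ≤ n ∧ lt x 1 = lt (P s x) (E s x) ∧ lt x (-1) = lt (P s x) (-E s x)
  par : ∀ s x, 0 ≤ x → x + 1 ≤ n → x ∉ S → x + 1 ∉ S → P s (x + 1) = P s x + E s x ∧ E s (x + 1) = E s x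
  r1 : ∀ x, 0 ≤ x → x ≤ n → x ∉ S → lt x 1 ≠ lt x (-1)
  r2 : ∀ x, 0 ≤ x → x + 1 ≤ n → lt x 1 ≠ lt (x + 1) (-1)

abbrev St := ℤ × Bool × ℤ

def rv (a : St) : St := (a.1, !a.2.1, a.2.2)
def ng (a : St) : St := (a.1, a.2.1, -a.2.2)
def sh (u : ℤ) (a : St) : St := (a.1 + a.2.2 * u, a.2)
def un (a : St) : Prop := a.2.2 = 1 ∨ a.2.2 = -1
def nb (N r : ℕ) : ℕ := N * (2 * r + 1) * 4

namespace Geo

variable {β : Type} (G : Geo β)

def ok (r : ℕ) (x : ℤ) : Prop := 0 ≤ x ∧ x ≤ G.n ∧ ∀ y ∈ G.S, x + r < y ∨ y + r < x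
def f (a : St) : St := (G.P a.2.1 a.1, !a.2.1, a.2.2 * G.E a.2.1 a.1)
def Pt (r : ℕ) (a : St) (k : ℕ) : Prop := ∀ i ≤ k, G.ok r (G.f^[i] a).1
def Sg (r : ℕ) (I : Set ℤ) (a b : St) : Prop :=
  un a ∧ ∃ k, 0 < k ∧ G.f^[k] a = b ∧ G.Pt r a k ∧ ∀ i, 0 < i → i < k → (G.f^[i] a).1 ∉ I

variable {G} {r r' : ℕ} {x u : ℤ} {a b c : St} {I I' : Set ℤ} {k : ℕ}

theorem ok.nm (h : G.ok r x) : x ∉ G.S := fun m => by have := h.2.2 x m; omega

theorem ok.sh (h : G.ok r x) (h1 : r' + u ≤ r) (h2 : r' - u ≤ r) : G.ok r' (x + u) := by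
  have := h.2.2 _ G.h0
  have := h.2.2 _ G.hn
  have := h.1
  have := h.2.1
  exact ⟨by omega, by omega, fun y hy => by have := h.2.2 y hy; omega⟩

theorem ok.mono (h : G.ok r x) (h1 : r' ≤ r) : G.ok r' x := by simpa using h.sh (u := 0) (r' := r') (by omega) (by omega)

theorem ok.inv (h : G.ok r x) (s : Bool) : G.P s (G.P s x) = x ∧ G.E s (G.P s x) = G.E s x ∧ (G.E s x = 1 ∨ G.E s x = -1) ∧
    G.P s x ≠ x ∧ 0 ≤ G.P s x ∧ G.P s x ≤ G.n ∧ G.lt x 1 = G.lt (G.P s x) (G.E s x) ∧ G.lt x (-1) = G.lt (G.P s x) (-G.E s x) :=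
  G.inv s x h.1 h.2.1 h.nm

theorem ok.par (h : G.ok r x) (s : Bool) : u ≤ r → -u ≤ r → G.P s (x + u) = G.P s x + G.E s x * u ∧ G.E s (x + u) = G.E s x := by
  induction u using Int.induction_on with
  | zero => simp
  | succ i ih =>
    intro h1 h2
    have a : G.ok 0 (x + i) := h.sh (by omega) (by omega)
    have b : G.ok 0 (x + (i + 1)) := h.sh (by omega) (by omega)
    rw [← add_assoc] at b ⊢
    have := G.par s _ a.1 b.2.1 a.nm b.nm
    have ih := ih (by omega) (by omega)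
    exact ⟨by rw [this.1, ih.1, ih.2]; ring, this.2.trans ih.2⟩
  | pred i ih =>
    intro h1 h2
    have a : G.ok 0 (x + (-i - 1)) := h.sh (by omega) (by omega)
    have b : G.ok 0 (x + -i) := h.sh (by omega) (by omega)
    have ih := ih (by omega) (by omega)
    rw [show x + -i = x + (-i - 1) + 1 by ring] at b ih
    have := G.par s _ a.1 b.2.1 a.nm b.nm
    exact ⟨by linear_combination ih.1 - this.1 - ih.2 + this.2, this.2.symm.trans ih.2⟩

theorem Pt.mono (h : G.Pt r a k) {j : ℕ} (h1 : r' ≤ r) (h2 : j ≤ k) : G.Pt r' a j := fun i hi => (h i (hi.trans h2)).mono h1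

theorem Pt.un (h : G.Pt r a k) (ha : un a) : ∀ i ≤ k, un (G.f^[i] a)
  | 0, _ => ha
  | i + 1, hi => by
    have := h.un ha i (by omega)
    have e := ((h i (by omega)).inv (G.f^[i] a).2.1).2.2.1
    rw [iterate_succ_apply']
    rcases this with t | t <;> rcases e with e | e <;> simp [MP_874169_lc.un, f, t, e]

theorem it_ng (a : St) : ∀ i, G.f^[i] (ng a) = ng (G.f^[i] a)
  | 0 => rfl
  | i + 1 => by rw [iterate_succ_apply', iterate_succ_apply', it_ng a i]; simp [f, ng]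

theorem Pt.it_sh (h : G.Pt r a k) (ha : MP_874169_lc.un a) (h1 : u ≤ r) (h2 : -u ≤ r) : ∀ i ≤ k, G.f^[i] (sh u a) = sh u (G.f^[i] a)
  | 0, _ => rfl
  | i + 1, hi => by
    rw [iterate_succ_apply', iterate_succ_apply', h.it_sh ha h1 h2 i (by omega)]
    have := (h i (by omega)).par (u := (G.f^[i] a).2.2 * u) (G.f^[i] a).2.1
    rcases h.un ha i (by omega) with t | t <;> rw [t] at this <;> have := this (by omega) (by omega) <;>
      simp only [f, sh, t, this] <;> simp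

theorem Pt.it_rv (h : G.Pt r a k) : ∀ i ≤ k, G.f^[i] (rv (G.f^[k] a)) = rv (G.f^[k - i] a)
  | 0, _ => rfl
  | i + 1, hi => by
    rw [iterate_succ_apply', h.it_rv i (by omega), show k - i = k - (i + 1) + 1 by omega, iterate_succ_apply']
    obtain ⟨a1, a2, a3, -⟩ := (h (k - (i + 1)) (by omega)).inv (G.f^[k - (i + 1)] a).2.1
    rcases a3 with e | e <;> simp [f, rv, a1, a2, e]

theorem Pt.cmp (h : G.Pt r a k) (ha : MP_874169_lc.un a) : ∀ i ≤ k, G.lt a.1 a.2.2 = G.lt (G.f^[i] a).1 (G.f^[i] a).2.2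
  | 0, _ => rfl
  | i + 1, hi => by
    rw [h.cmp ha i (by omega), iterate_succ_apply']
    have := ((h i (by omega)).inv (G.f^[i] a).2.1).2.2.2.2.2.2
    rcases h.un ha i (by omega) with t | t <;> simp [f, t, this]

theorem Sg.un (h : G.Sg r I a b) : un b := by obtain ⟨u, k, -, rfl, p, -⟩ := h; exact p.un u k le_rfl
theorem Sg.ok1 (h : G.Sg r I a b) : G.ok r a.1 := by obtain ⟨u, k, -, rfl, p, -⟩ := h; exact p 0 k.zero_le
theorem Sg.ok2 (h : G.Sg r I a b) : G.ok r b.1 := by obtain ⟨u, k, -, rfl, p, -⟩ := h; exact p k le_rfl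

theorem Sg.mono (h : G.Sg r I a b) (h1 : r' ≤ r) (h2 : I' ⊆ I) : G.Sg r' I' a b := by
  obtain ⟨u, k, k0, e, p, v⟩ := h
  exact ⟨u, k, k0, e, p.mono h1 le_rfl, fun i a b m => v i a b (h2 m)⟩

theorem Sg.ng (h : G.Sg r I a b) : G.Sg r I (ng a) (ng b) := by
  obtain ⟨u, k, k0, rfl, p, v⟩ := h
  refine ⟨by simp only [MP_874169_lc.un, MP_874169_lc.ng] at *; omega, k, k0, it_ng .., fun i hi => ?_, fun i a b => ?_⟩ <;>
    rw [it_ng]
  exacts [p i hi, v i a b]

theorem Sg.rv (h : G.Sg r I a b) : G.Sg r I (rv b) (rv a) := by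
  have hb := h.un
  obtain ⟨u, k, k0, rfl, p, v⟩ := h
  refine ⟨hb, k, k0, by rw [p.it_rv k le_rfl, Nat.sub_self]; rfl, fun i hi => ?_, fun i a b => ?_⟩
  · rw [p.it_rv i hi]; exact p _ (by omega)
  · rw [p.it_rv i b.le]; exact v _ (by omega) (by omega)

theorem Sg.trans (h : G.Sg r I a b) (h' : G.Sg r I b c) (n : b.1 ∉ I) : G.Sg r I a c := by
  obtain ⟨u, k, k0, rfl, p, v⟩ := h
  obtain ⟨-, j, j0, rfl, q, w⟩ := h'
  have e : ∀ i, k ≤ i → G.f^[i] a = G.f^[i - k] (G.f^[k] a) := fun i hi => by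
    rw [← iterate_add_apply, Nat.sub_add_cancel hi]
  refine ⟨u, j + k, by omega, iterate_add_apply .., fun i hi => ?_, fun i a b => ?_⟩
  · rcases le_total i k with l | l
    exacts [p i l, e i l ▸ q _ (by omega)]
  · rcases lt_trichotomy i k with l | rfl | l
    exacts [v i a l, n, e i l.le ▸ w _ (by omega) (by omega)]

theorem Sg.uniq (h : G.Sg r I a b) (h' : G.Sg r' I a c) (hb : b.1 ∈ I) (hc : c.1 ∈ I) : b = c := by
  obtain ⟨u, k, k0, rfl, p, v⟩ := h
  obtain ⟨-, j, j0, rfl, q, w⟩ := h'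
  rcases lt_trichotomy j k with l | rfl | l
  exacts [(v j j0 l hc).elim, rfl, (w k k0 l hb).elim]

theorem Sg.split (h : G.Sg r I a b) (h' : G.Sg r I a c) (hb : b.1 ∉ I) (hc : c.1 ∈ I) : G.Sg r I b c := by
  have ub := h.un
  obtain ⟨u, k, k0, rfl, p, v⟩ := h
  obtain ⟨-, j, j0, rfl, q, w⟩ := h'
  rcases lt_trichotomy j k with l | rfl | l
  · exact (v j j0 l hc).elim
  · exact (hb hc).elim
  refine ⟨ub, j - k, by omega, by rw [← iterate_add_apply, Nat.sub_add_cancel l.le], fun i hi => ?_, fun i a b => ?_⟩ <;>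
    rw [← iterate_add_apply]
  exacts [q _ (by omega), w _ (by omega) (by omega)]

theorem Sg.sh (h : G.Sg r I a b) (u : ℤ) (h1 : r' + u ≤ r) (h2 : r' - u ≤ r)
    (hI : ∀ v, G.ok r v → v ∉ I → v + u ∉ I' ∧ v - u ∉ I') : G.Sg r' I' (sh u a) (sh u b) := by
  obtain ⟨ua, k, k0, rfl, p, v⟩ := h
  have e := p.it_sh (u := u) ua (by omega) (by omega)
  refine ⟨ua, k, k0, e k le_rfl, fun i hi => ?_, fun i a b => ?_⟩
  · rw [e i hi]
    rcases p.un ua i hi with t | t <;> exact (p i hi).sh (by rw [t]; omega) (by rw [t]; omega)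
  · have := hI _ (p i b.le) (v i a b)
    rw [e i b.le]
    rcases p.un ua i b.le with t | t <;> simp only [MP_874169_lc.sh, t] <;> simpa [sub_eq_add_neg] using by tauto

theorem Sg.cmp (h : G.Sg r I a b) (h1 : u ≤ r) (h2 : -u ≤ r) : G.lt (a.1 + a.2.2 * u) a.2.2 = G.lt (b.1 + b.2.2 * u) b.2.2 := by
  obtain ⟨ua, k, -, e, p, -⟩ := h.sh (I' := ∅) (r' := 0) u (by omega) (by omega) (by simp)
  have := p.cmp ua k le_rfl
  rwa [e] at this

theorem first (ua : un a) (p : G.Pt r a k) (k0 : 0 < k) (h : (G.f^[k] a).1 ∈ I) : ∃ b, G.Sg r I a b ∧ b.1 ∈ I := by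
  classical
  have e : ∃ k, 0 < k ∧ (G.f^[k] a).1 ∈ I := ⟨k, k0, h⟩
  exact ⟨_, ⟨ua, _, (Nat.find_spec e).1, rfl, p.mono le_rfl (Nat.find_min' e ⟨k0, h⟩),
    fun i a b m => Nat.find_min e b ⟨a, m⟩⟩, (Nat.find_spec e).2⟩

theorem side (a : St) : ∀ i, (G.f^[i] a).2.1 = (a.2.1 != decide (i % 2 = 1))
  | 0 => by simp
  | i + 1 => by
    rw [iterate_succ_apply', f, side a i]
    rcases Nat.mod_two_eq_zero_or_one i with h | h <;> simp [Nat.add_mod, h]

theorem Sg.far {x y o : ℤ} {s : Bool} (h : G.Sg r I (x, s, o) (y, !s, o)) : x + r < y ∨ y + r < x := by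
  obtain ⟨ua, k, k0, e, p, -⟩ := h
  by_contra n
  have u2 : o * o = 1 := by rcases ua with t | t <;> simp_all
  have e1 := p.it_sh (u := o * (y - x)) ua (by rcases ua with t | t <;> simp_all <;> omega)
    (by rcases ua with t | t <;> simp_all <;> omega) k le_rfl
  have e2 := p.it_rv
  simp only [e, MP_874169_lc.sh, MP_874169_lc.rv, ← mul_assoc, u2, one_mul, add_sub_cancel, Bool.not_not] at e1 e2
  have e3 := e2 k le_rfl
  rw [e1, Nat.sub_self] at e3
  obtain rfl : x = y := by have := congrArg (·.1) e3; simp at this; omega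
  have s1 := side (G := G) (x, s, o) k
  have : k % 2 = 1 := by by_contra z; simp [e, z] at s1
  have e4 := congrArg (·.1) (e2 (k / 2) (by omega))
  rw [show k - k / 2 = k / 2 + 1 by omega, iterate_succ_apply'] at e4
  exact ((p (k / 2) (by omega)).inv _).2.2.2.1 e4.symm

theorem Sg.rev {x y o : ℤ} {s s' : Bool} (h : G.Sg r I (x, s, o) (y, s', -o)) : x + 2 * r < y ∨ y + 2 * r < x := by
  have key : ∀ {x y : ℤ} {s s' : Bool}, G.Sg r I (x, s, 1) (y, s', -1) → x + 2 * r < y ∨ y + 2 * r < x := fun {x y s s'} h => by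
    by_contra n
    have e := h.cmp (u := (y - x) / 2) (by omega) (by omega)
    have k : G.ok 0 (x + (y - x) / 2) := h.ok1.sh (by omega) (by omega)
    have k' : G.ok 0 (y + -((y - x) / 2)) := h.ok2.sh (by omega) (by omega)
    simp only [one_mul, neg_mul] at e
    rcases Int.emod_two_eq_zero_or_one (y - x) with t | t
    · rw [show y + -((y - x) / 2) = x + (y - x) / 2 by omega] at e
      exact G.r1 _ k.1 k.2.1 k.nm e
    · rw [show y + -((y - x) / 2) = x + (y - x) / 2 + 1 by omega] at e k'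
      exact G.r2 _ k.1 k'.2.1 e
  rcases h.1 with t | t <;> obtain rfl : o = _ := t
  · exact key h
  · exact key (by simpa [MP_874169_lc.ng] using h.ng)

theorem back {a a' : St} : ∀ k, (∀ i < k, G.ok r (G.f^[i] a).1) → (∀ i < k, G.ok r (G.f^[i] a').1) →
    (G.f^[k] a).1 = (G.f^[k] a').1 → (G.f^[k] a).2.1 = (G.f^[k] a').2.1 → a.1 = a'.1 ∧ a.2.1 = a'.2.1
  | 0, _, _, e1, e2 => ⟨e1, e2⟩
  | k + 1, p, q, e1, e2 => by
    rw [iterate_succ_apply', iterate_succ_apply'] at e1 e2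
    have e3 : (G.f^[k] a).2.1 = (G.f^[k] a').2.1 := by simpa [f] using e2
    refine back k (fun i hi => p i (by omega)) (fun i hi => q i (by omega)) ?_ e3
    rw [← ((p k (by omega)).inv (G.f^[k] a).2.1).1, ← ((q k (by omega)).inv (G.f^[k] a').2.1).1]
    simp only [f] at e1
    rw [e1, e3]

theorem charge {ι : Type} {N : ℕ} (hN : G.S.card ≤ N) (T : Finset ι) (x : ι → ℤ) (s : ι → Bool) (I : ι → Set ℤ)
    (hx : ∀ i ∈ T, 0 ≤ x i ∧ x i ≤ G.n) (inj : ∀ i ∈ T, ∀ j ∈ T, x i = x j → s i = s j → i = j)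
    (h : ∀ i ∈ T, ∀ j ∈ T, ∀ o, G.Sg r (I i) (x i, s i, 1) (x j, s j, o) → x j ∈ I i)
    (bad : ∀ i ∈ T, ¬ ∃ b, G.Sg r (I i) (x i, s i, 1) b ∧ b.1 ∈ I i) : T.card ≤ nb N r := by
  classical
  have A : ∀ i ∈ T, ∀ j ∈ T, ∀ k, 0 < k → G.Pt r (x i, s i, 1) k → x j = (G.f^[k] (x i, s i, 1)).1 →
      s j = (G.f^[k] (x i, s i, 1)).2.1 → False := fun i hi j hj k k0 p e1 e2 => by
    by_cases c : ∃ l, 0 < l ∧ l < k ∧ (G.f^[l] (x i, s i, 1)).1 ∈ I i
    · obtain ⟨l, l0, lk, m⟩ := c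
      exact bad i hi (first (.inl rfl) (p.mono le_rfl lk.le) l0 m)
    · have : G.Sg r (I i) (x i, s i, 1) (x j, s j, (G.f^[k] (x i, s i, 1)).2.2) :=
        ⟨.inl rfl, k, k0, by rw [e1, e2], p, fun l a b m => c ⟨l, a, b, m⟩⟩
      exact bad i hi ⟨_, this, h i hi j hj _ this⟩
  have B : ∀ i ∈ T, ∀ j ∈ T, ∀ k l, k < l → (∀ t < k, G.ok r (G.f^[t] (x j, s j, 1)).1) → (∀ t < l, G.ok r (G.f^[t] (x i, s i, 1)).1) →
      G.ok r (G.f^[l - k] (x i, s i, 1)).1 → (G.f^[k] (x j, s j, 1)).1 = (G.f^[l] (x i, s i, 1)).1 →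
      (G.f^[k] (x j, s j, 1)).2.1 = (G.f^[l] (x i, s i, 1)).2.1 → False := fun i hi j hj k l kl p q q' e1 e2 => by
    have e : ∀ t, G.f^[t] (G.f^[l - k] (x i, s i, 1)) = G.f^[t + (l - k)] (x i, s i, 1) := fun t => (iterate_add_apply ..).symm
    have := back (a' := G.f^[l - k] (x i, s i, 1)) k p (fun t ht => e t ▸ q _ (by omega))
      (by rw [e, e1, show k + (l - k) = l by omega]) (by rw [e, e2, show k + (l - k) = l by omega])
    refine A i hi j hj (l - k) (by omega) (fun t ht => ?_) this.1 this.2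
    rcases ht.lt_or_eq with c | rfl
    exacts [q t (by omega), q']
  have C : ∀ i ∈ T, ∃ k, ¬ G.ok r (G.f^[k] (x i, s i, 1)).1 := fun i hi => by
    by_contra! c
    obtain ⟨k, l, kl, e⟩ := Set.Finite.exists_lt_map_eq_of_forall_mem (t := ((Icc 0 G.n ×ˢ (univ : Finset Bool) : Finset _) : Set (ℤ × Bool)))
      (f := fun k : ℕ => ((G.f^[k] (x i, s i, 1)).1, (G.f^[k] (x i, s i, 1)).2.1))
      (fun k => by simpa using ⟨(c k).1, (c k).2.1⟩) (Finset.finite_toSet _)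
    have e' := Prod.ext_iff.1 e
    have := back (r := r) (a := (x i, s i, 1)) (a' := G.f^[l - k] (x i, s i, 1)) k (fun t _ => c t)
      (fun t _ => by rw [← iterate_add_apply]; exact c _)
      (by rw [← iterate_add_apply, show k + (l - k) = l by omega]; exact e'.1)
      (by rw [← iterate_add_apply, show k + (l - k) = l by omega]; exact e'.2)
    exact A i hi i hi (l - k) (by omega) (fun t _ => c t) this.1 this.2
  choose! K hK using fun i hi => (Nat.findX (C i hi)).exists_of_subtype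
  have K2 : ∀ i ∈ T, ∀ t < K i, G.ok r (G.f^[t] (x i, s i, 1)).1 := fun i hi t ht => by simpa using (hK i hi).2 t ht
  refine (card_le_card_of_injOn (t := (G.S.biUnion fun y => Icc (y - r) (y + r)) ×ˢ (univ : Finset (Bool × Bool)))
    (fun i => ((G.f^[K i] (x i, s i, 1)).1, (G.f^[K i] (x i, s i, 1)).2.1, decide (K i = 0))) (fun i hi => ?_)
    fun i hi j hj e => ?_).trans ?_
  · have r0 : 0 ≤ (G.f^[K i] (x i, s i, 1)).1 ∧ (G.f^[K i] (x i, s i, 1)).1 ≤ G.n := by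
      rcases e : K i with _ | k
      · exact hx i hi
      · rw [iterate_succ_apply']
        have := (K2 i hi k (by omega)).inv (G.f^[k] (x i, s i, 1)).2.1
        exact ⟨this.2.2.2.2.1, this.2.2.2.2.2.1⟩
    have := (hK i hi).1
    simp only [ok, r0, true_and, not_forall] at this
    obtain ⟨y, hy, c⟩ := this
    simp only [coe_product, Set.mem_prod, coe_univ, Set.mem_univ, and_true, mem_coe, mem_biUnion, mem_Icc]
    exact ⟨y, hy, by omega⟩
  · simp only [Prod.mk.injEq, decide_eq_decide] at e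
    rcases lt_trichotomy (K i) (K j) with c | c | c
    · exact (B j hj i hi _ _ c (K2 i hi) (K2 j hj) (K2 j hj _ (by omega)) e.1 e.2.1).elim
    · have := back (K i) (K2 i hi) (c ▸ K2 j hj) (by rw [e.1, c]) (by rw [e.2.1, c])
      exact inj i hi j hj this.1 this.2
    · exact (B i hi j hj _ _ c (K2 j hj) (K2 i hi) (K2 i hi _ (by omega)) e.1.symm e.2.1.symm).elim
  · rw [card_product, nb]
    refine Nat.mul_le_mul (card_biUnion_le.trans ((sum_le_card_nsmul _ _ (2 * r + 1) fun y _ => ?_).trans ?_)) (by simp)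
    · simp; omega
    · exact Nat.mul_le_mul_right _ hN

end Geo

end Pool.Agent.H.MP_874169_lc
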