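import Pool.Agent.H.MP_874169_lc.A

set_option autoImplicit false

namespace Pool.Agent.H.MP_874169_lc

open Finset Function

theorem cnt {κ : Type} [DecidableEq κ] (O Bad C : Finset κ) (hC : C ⊆ O) (h : Bad.card < C.card) (r : κ → κ → Prop)
    (ex : ∀ a ∈ O, a ∉ Bad → ∃ b ∈ O, b ∉ C ∧ r a b) (inj : ∀ a a' b, a ∈ O → a' ∈ O → r a b → r a' b → a = a') : False := by
  have h1 := card_le_card_of_forall_subsingleton (s := O \ Bad) (t := O \ C) r
    (fun a ha => by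
      obtain ⟨b, h1, h2, h3⟩ := ex a (mem_sdiff.1 ha).1 (mem_sdiff.1 ha).2
      exact ⟨b, mem_sdiff.2 ⟨h1, h2⟩, h3⟩)
    fun b _ a ha a' ha' => inj a a' b (mem_sdiff.1 ha.1).1 (mem_sdiff.1 ha'.1).1 ha.2 ha'.2
  have h2 := le_card_sdiff Bad O
  have h3 := card_sdiff_add_card_eq_card hC
  omega

namespace Geo

variable {β : Type} (G : Geo β)

def Si (r : ℕ) (l h : ℤ) (a b : St) : Prop := G.Sg r (Set.Icc l h) a b

structure NP (r : ℕ) (α ω : ℤ) : Prop where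
  a : α ∈ G.S
  w : ω ∈ G.S
  h1 : ∀ x y s, α ≤ x → x ≤ ω → α ≤ y → y ≤ ω → ¬ G.Si r (min x y) (max x y) (x, s, 1) (y, s, 1)
  h2a : ∀ s t b t' b', α ≤ t → t' ≤ ω → t ≤ b' → b' < b → b < t' → G.Si r t t' (t, s, 1) (b, s, -1) →
    ¬ G.Si r t t' (t', s, 1) (b', s, -1)
  h2c : ∀ s p q b b', α ≤ p → q ≤ ω → p < b → b < b' → b' ≤ q → G.Si r p q (p, s, 1) (q, !s, 1) →
    ¬ G.Si r p q (b, !s, 1) (b', s, 1)
  h3 : ∀ s p q b b1 b2 t, α ≤ p → q ≤ ω → p ≤ b → b < b1 → b1 ≤ t → t < q → b1 < b2 → b2 < q →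
    G.Si r p q (p, s, 1) (q, !s, 1) → G.Si r p q (b1, !s, 1) (b2, s, -1) → ¬ G.Si r p q (b, !s, 1) (t, !s, -1)

variable {G} {r r' N : ℕ} {l h l' h' x y z o o' o'' α ω : ℤ} {s s' s'' : Bool} {a b c : St}

theorem Si.mo (H : G.Si r l h a b) (e : r' ≤ r ∧ (l ≤ l' ∧ h' ≤ h ∨ h' < l')) : G.Si r' l' h' a b :=
  Sg.mono H e.1 fun v hv => by simp only [Set.mem_Icc] at *; omega

theorem Si.tr {r1 r2 : ℕ} {l1 h1 l2 h2 : ℤ} (H : G.Si r1 l1 h1 a (y, s, o)) (H' : G.Si r2 l2 h2 (y, s, o) c)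
    (e : (r ≤ r1 ∧ r ≤ r2) ∧ (l1 ≤ l ∧ h ≤ h1 ∨ h < l) ∧ (l2 ≤ l ∧ h ≤ h2 ∨ h < l) ∧ (y < l ∨ h < y)) : G.Si r l h a c :=
  Sg.trans (H.mo ⟨e.1.1, e.2.1⟩) (H'.mo ⟨e.1.2, e.2.2.1⟩) fun hv => by simp only [Set.mem_Icc] at *; omega

theorem Si.rv (H : G.Si r l h (x, s, o) (y, s', o')) {t t' : Bool} (e : t = (!s) ∧ t' = !s') :
    G.Si r l h (y, t', o') (x, t, o) := e.1 ▸ e.2 ▸ Sg.rv H

theorem Si.ng (H : G.Si r l h (x, s, o) (y, s', o')) {p p' : ℤ} (e : p = -o ∧ p' = -o') :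
    G.Si r l h (x, s, p) (y, s', p') := e.1 ▸ e.2 ▸ Sg.ng H

theorem Si.sh (H : G.Si r l h (x, s, o) (y, s', o')) (u : ℤ) {x' y' : ℤ} (e : x' = x + o * u ∧ y' = y + o' * u ∧
    (r' + u ≤ r ∧ r' - u ≤ r) ∧ l + u ≤ l' ∧ l - u ≤ l' ∧ h' ≤ h + u ∧ h' ≤ h - u) : G.Si r' l' h' (x', s, o) (y', s', o') :=
  e.1 ▸ e.2.1 ▸ Sg.sh H u e.2.2.1.1 e.2.2.1.2 fun v _ hv => by simp only [Set.mem_Icc] at *; omega

theorem Si.uq (H : G.Si r l h a (y, s, o)) (H' : G.Si r' l' h' a (z, s', o')) (l2 h2 : ℤ)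
    (e : l ≤ l2 ∧ l' ≤ l2 ∧ h2 ≤ h ∧ h2 ≤ h' ∧ l2 ≤ y ∧ y ≤ h2 ∧ l2 ≤ z ∧ z ≤ h2) : y = z ∧ s = s' ∧ o = o' := by
  have := Sg.uniq (H.mo (r' := r) (l' := l2) (h' := h2) (by omega)) (H'.mo (r' := r') (l' := l2) (h' := h2) (by omega))
    ⟨e.2.2.2.2.1, e.2.2.2.2.2.1⟩ e.2.2.2.2.2.2
  simpa using this

theorem Si.fb (H : G.Si r l h (x, s, o) (y, s', o')) (e : o' = -o) : x + 2 * r < y ∨ y + 2 * r < x := by
  subst e; exact Sg.rev H

theorem Si.fc (H : G.Si r l h (x, s, o) (y, s', o)) (e : s' = !s) : x + r < y ∨ y + r < x := by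
  subst e; exact Sg.far H

theorem NP.g1 (np : G.NP r α ω) (H : G.Si r (min x y) (max x y) (x, s, o) (y, s, o))
    (e : α ≤ x ∧ x ≤ ω ∧ α ≤ y ∧ y ≤ ω) : False := by
  rcases H.1 with t | t <;> obtain rfl : o = _ := t
  exacts [np.h1 x y s e.1 e.2.1 e.2.2.1 e.2.2.2 H, np.h1 x y s e.1 e.2.1 e.2.2.1 e.2.2.2 (H.ng (by simp))]

theorem cases4 {I : Set ℤ} (H : ∃ b, G.Sg r I (x, s, 1) b ∧ b.1 ∈ I) : ∃ y ∈ I, G.Sg r I (x, s, 1) (y, s, 1) ∨ G.Sg r I (x, s, 1) (y, s, -1) ∨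
    G.Sg r I (x, s, 1) (y, !s, -1) ∨ G.Sg r I (x, s, 1) (y, !s, 1) := by
  obtain ⟨⟨y, s', o⟩, H, m⟩ := H
  refine ⟨y, m, ?_⟩
  rcases H.un with t | t <;> obtain rfl : o = _ := t <;> rcases Bool.eq_or_eq_not s' s with rfl | rfl <;> tauto

theorem F4 (np : G.NP r α ω) (hN : G.S.card ≤ N) {R : ℕ} (hR : r + 2 * nb N r + 2 ≤ R) {p q : ℤ} (h1 : α ≤ p) (h2 : q ≤ ω) (h3 : p ≤ z)
    (h4 : z ≤ q) (C : G.Si R (p - R) (q + R) (p, s, 1) (q, !s, 1)) (A : G.Si R (p - R) (q + R) (q, !s, 1) (z, !s, -1)) : False := by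
  classical
  have f1 := (A.fb (by simp))
  have f2 := (((C.tr A (by omega)) : G.Si R 1 0 _ _).fb (by simp))
  have TT : ∀ e h : ℤ, 0 ≤ e → e ≤ nb N r + 1 → h < q + e → h ≤ q → G.Si r p h (p + e, s, 1) (z - e, !s, -1) := fun e h a b c d =>
    (((C.sh e (by omega)) : G.Si r p q _ (q + e, !s, 1)).tr ((A.sh e (by omega)) : G.Si r p q _ _) (by omega))
  let BB : ℤ → Prop := fun b => p ≤ b ∧ b ≤ q ∧ ∃ b' o, p ≤ b' ∧ b' ≤ q ∧ G.Si r p q (b, !s, 1) (b', s, o)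
  obtain ⟨m, hm, hm'⟩ := Int.exists_least_of_bdd (P := fun m => BB m ∨ m = q + 1) ⟨p, fun m hm => by
    rcases hm with hm | hm
    exacts [hm.1, by omega]⟩ ⟨_, .inr rfl⟩
  have mq := hm' _ (.inr rfl)
  have mB : m ≤ q → p ≤ m ∧ ∃ b', m < b' ∧ b' ≤ q ∧ (G.Si r p q (m, !s, 1) (b', s, 1) ∨ G.Si r p q (m, !s, 1) (b', s, -1)) := fun e => by
    obtain ⟨a1, a2, b', o, a3, a4, H⟩ := hm.resolve_right (by omega)
    rcases H.un with t | t <;> obtain rfl : o = _ := t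
    · have := hm' b' (.inl ⟨a3, a4, m, 1, a1, a2, (H.rv (by simp))⟩)
      have := (H.fc (by simp))
      exact ⟨a1, b', by omega, a4, .inl H⟩
    · have := hm' b' (.inl ⟨a3, a4, m, -1, a1, a2, (((H.rv (by simp)) : G.Si r p q (b', !s, -1) (m, s, 1)).ng (by simp))⟩)
      have := (H.fb (by simp))
      exact ⟨a1, b', by omega, a4, .inr H⟩
  have C' : G.Si r p q (p, s, 1) (q, !s, 1) := (C.mo (by omega))
  have Cr : G.Si r p q (q, s, 1) (p, !s, 1) := (C'.rv (by simp))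
  have mp : p + nb N r + 1 < m := by
    by_contra n
    obtain ⟨a1, b', a2, a3, H | H⟩ := mB (by omega)
    · rcases a1.lt_or_eq with a1 | rfl
      · exact np.h2c s p q m b' h1 h2 a1 a2 a3 C' H
      · exact (np.g1 ((Cr.tr H (by omega))) (by omega))
    · have : b' ≠ q := by
        rintro rfl
        have := (((((H.rv (by simp)) : G.Si r p b' (b', !s, -1) (m, s, 1)).ng (by simp)) : G.Si r p b' (b', !s, 1) (m, s, -1)).uq A p b' (by omega))
        simp at this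
      obtain ⟨e, rfl⟩ : ∃ e, m = p + e := ⟨m - p, by ring⟩
      obtain ⟨h, hh⟩ : ∃ h, h + 1 = q := ⟨q - 1, by ring⟩
      have K : G.Si r p h (z - e, s, -1) (p + e, !s, 1) := ((TT e h (by omega) (by omega) (by omega) (by omega)).rv (by simp))
      exact (np.g1 (K.tr H ⟨by omega, .inl ⟨le_min (by omega) (by omega), max_le (by omega) (by omega)⟩,
        .inl ⟨le_min (by omega) (by omega), max_le (by omega) (by omega)⟩, .inl (lt_min (by omega) (by omega))⟩) (by omega))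
  have ok1 := C.ok1
  have ok2 := C.ok2
  have bad := charge (r := r) hN ((Icc p q).filter fun x => ¬ ∃ b, G.Sg r (Set.Icc p q) (x, !s, 1) b ∧ b.1 ∈ Set.Icc p q) id (fun _ => !s)
    (fun _ => Set.Icc p q) (fun i hi => by have := mem_Icc.1 (mem_filter.1 hi).1; have := ok1.1; have := ok2.2.1; simp at *; omega)
    (fun i _ j _ e _ => e) (fun i _ j hj _ _ => mem_Icc.1 (mem_filter.1 hj).1) fun i hi => (mem_filter.1 hi).2
  refine cnt (Ico p m) _ (Icc (p + 1) (p + nb N r + 1)) (fun v hv => by simp at *; omega) (bad.trans_lt (by simp; omega))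
    (fun x t => G.Si r p q (x, !s, 1) (t, !s, -1)) (fun x hx n => ?_) fun x x' t hx hx' H H' => ?_
  · have hx := mem_Ico.1 hx
    obtain ⟨t, ⟨t1, t2⟩, H | H | H | H⟩ := cases4 (by_contra fun c => n (mem_filter.2 ⟨mem_Icc.2 ⟨hx.1, by omega⟩, c⟩))
    · exact ((np.g1 (Si.mo H (by omega)) (by omega))).elim
    · have Hr : G.Si r p q (t, s, 1) (x, s, -1) := ((Si.rv H (by simp) : G.Si r p q (t, s, -1) (x, s, 1)).ng (by simp))
      refine ⟨t, mem_Ico.2 ⟨t1, by_contra fun c => ?_⟩, fun c => ?_, H⟩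
      · obtain ⟨a1, b', a2, a3, H' | H'⟩ := mB (by omega)
        · exact np.h2c s p q m b' h1 h2 (by omega) a2 a3 C' H'
        · refine np.h3 s p q x m b' t h1 h2 hx.1 hx.2 (by omega) (t2.lt_of_ne ?_) a2 (a3.lt_of_ne ?_) C' H' H
          · rintro rfl
            have := (Hr.uq Cr p t (by omega))
            simp at this
          · rintro rfl
            have := (((((H'.rv (by simp)) : G.Si r p b' (b', !s, -1) (m, s, 1)).ng (by simp)) : G.Si r p b' (b', !s, 1) (m, s, -1)).uq A p b' (by omega))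
            simp at this
      · have c := mem_Icc.1 c
        obtain ⟨e, rfl⟩ : ∃ e, t = p + e := ⟨t - p, by ring⟩
        have := (Hr.uq (TT e q (by omega) (by omega) (by omega) le_rfl) p q (by omega))
        simp at this
    · have := hm' x (.inl ⟨hx.1, by omega, t, -1, t1, t2, by simpa [Si] using H⟩)
      omega
    · have := hm' x (.inl ⟨hx.1, by omega, t, 1, t1, t2, by simpa [Si] using H⟩)
      omega
  · have hx := mem_Ico.1 hx
    have hx' := mem_Ico.1 hx'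
    exact ((((H.rv (by simp)) : G.Si r p q (t, s, -1) (x, s, 1)).uq ((H'.rv (by simp)) : G.Si r p q (t, s, -1) (x', s, 1)) p q (by omega))).1

theorem ret (hN : G.S.card ≤ N) {p q x' : ℤ} (hx : x = p ∧ x' = q ∨ x = q ∧ x' = p) {n : ℤ} (hn : p + n ≤ q)
    (C : ∀ u, 0 ≤ u → u ≤ n → G.Si r (p + u) (q + u) (x + u, s, 1) (x' + u, !s, 1)) (I : ℤ → Set ℤ)
    (hI : ∀ u, 0 ≤ u → Set.Icc (p + u) (q + u) ⊆ I u) [DecidablePred fun u => ¬ ∃ b, G.Sg r (I u) (x + u, !s, 1) b ∧ b.1 ∈ I u] :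
    ((Icc 0 n).filter fun u => ¬ ∃ b, G.Sg r (I u) (x + u, !s, 1) b ∧ b.1 ∈ I u).card ≤ nb N r := by
  refine charge (r := r) hN _ (fun u => x + u) (fun _ => !s) I (fun i hi => ?_) (fun i _ j _ e _ => by simpa using e)
    (fun i hi j hj o H => ?_) fun i hi => (mem_filter.1 hi).2
  · have := mem_Icc.1 (mem_filter.1 hi).1
    exact ⟨(C i this.1 this.2).ok1.1, (C i this.1 this.2).ok1.2.1⟩
  · have hi := mem_Icc.1 (mem_filter.1 hi).1
    have hj := mem_Icc.1 (mem_filter.1 hj).1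
    by_contra c
    have c : ¬ (p + i ≤ x + j ∧ x + j ≤ q + i) := fun e => c (hI i hi.1 e)
    have H : G.Si r (p + i) (q + i) (x + j, s, o) (x + i, s, 1) := Si.rv (H.mono le_rfl (hI i hi.1)) (by simp)
    have Cj := C j hj.1 hj.2
    rcases H.1 with t | t <;> obtain rfl : o = _ := t
    · have := (H.uq Cj (p + max i j) (q + min i j) (by omega))
      simp at this
    · have := (H.uq ((Cj.ng (by simp)) : G.Si _ _ _ (_, _, -1) (_, _, -1)) (p + max i j) (q + min i j) (by omega))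
      simp at this

theorem step3 (np : G.NP r α ω) (hN : G.S.card ≤ N) {R R' : ℕ} (hR : r + 2 * nb N r + 2 ≤ R) (hR' : 2 * R + 2 * nb N R + 2 ≤ R') {p q : ℤ}
    (h1 : α ≤ p - R') (h2 : q + R' ≤ ω) (h3 : p ≤ z) (h4 : z < y) (h5 : y ≤ q) (C : G.Si R' (p - R') (q + R') (p, s, 1) (q, !s, 1))
    (Y : G.Si R' (p - R') (q + R') (p, !s, 1) (y, s, -1)) (Z : G.Si R' (p - R') (q + R') (q, !s, 1) (z, s, -1)) : False := by
  classical
  have f1 := (((C.tr Z (by omega)) : G.Si R' 1 0 _ _).fb (by simp))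
  have f2 := (((((C.rv (by simp)) : G.Si _ _ _ (q, s, 1) (p, !s, 1)).tr Y (by omega)) : G.Si R' 1 0 _ _).fb (by simp))
  have D : G.Si R' (p + 1) (q - 1) (y, !s, 1) (z, s, 1) :=
    (((((((Y.rv (by simp)) : G.Si _ _ _ (y, !s, -1) (p, s, 1)).tr C (by omega)) : G.Si R' (p + 1) (q - 1) _ _).tr Z (by omega)) : G.Si R' (p + 1) (q - 1) _ _).ng (by simp))
  have f3 := (D.fc (by simp))
  have bad := ret (r := R) (x := y) (s := !s) (p := z) (q := y) (x' := z) hN (.inr ⟨rfl, rfl⟩) (n := nb N R) (by omega)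
    (fun u a b => by rw [Bool.not_not]; exact (D.sh u (by omega))) (fun u => Set.Icc (p - u - R) (y + u + R))
    fun u _ v hv => by simp only [Set.mem_Icc] at *; omega
  obtain ⟨u, hu, g⟩ : ∃ u ∈ Icc (0 : ℤ) (nb N R), ∃ b, G.Sg R (Set.Icc (p - u - R) (y + u + R)) (y + u, !!s, 1) b ∧
      b.1 ∈ Set.Icc (p - u - R) (y + u + R) := by
    by_contra c
    rw [filter_true_of_mem (by exact fun u hu h => c ⟨u, hu, h⟩)] at bad
    simp at bad
  have hu := mem_Icc.1 hu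
  rw [Bool.not_not] at g
  have C : G.Si (2 * R) (p - u - R) (q - u + R) (p - u, s, 1) (q - u, !s, 1) := (C.sh (-u) (by omega))
  have Y : G.Si (2 * R) (p - u - R) (q - u + R) (p - u, !s, 1) (y + u, s, -1) := (Y.sh (-u) (by omega))
  have Z : G.Si (2 * R) (p - u - R) (q - u + R) (q - u, !s, 1) (z + u, s, -1) := (Z.sh (-u) (by omega))
  have f1 := (((C.tr Z (by omega)) : G.Si (2 * R) 1 0 _ _).fb (by simp))
  have f2 := (((((C.rv (by simp)) : G.Si _ _ _ (q - u, s, 1) (p - u, !s, 1)).tr Y (by omega)) : G.Si (2 * R) 1 0 _ _).fb (by simp))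
  have h1 : α ≤ p - u - R := by omega
  have h2 : q - u + R ≤ ω := by omega
  have h3 : p - u ≤ z + u := by omega
  have h4 : z + u + R < y + u := by omega
  have h5 : y + u ≤ q - u := by omega
  clear D f3 bad
  generalize p - u = p, q - u = q, y + u = y, z + u = z at *
  have CZ : G.Si (2 * R) (p - R) (q - 1) (p, s, 1) (z, s, -1) := (C.tr Z (by omega))
  have D : G.Si (2 * R) (p + 1) (q - 1) (y, !s, 1) (z, s, 1) :=
    (((((Y.rv (by simp)) : G.Si _ _ _ (y, !s, -1) (p, s, 1)).tr CZ (by omega)) : G.Si (2 * R) (p + 1) (q - 1) _ _).ng (by simp))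
  obtain ⟨t, ⟨t1, t2⟩, H | H | H | H⟩ := cases4 g <;> change G.Si R (p - R) (y + R) _ _ at H
  · exact (np.g1 (H.mo (by omega)) (by omega))
  · have := (H.fb (by simp))
    have Hr : G.Si R (p - R) (y + R) (t, !s, 1) (y, !s, -1) := (((H.rv (by simp)) : G.Si _ _ _ (t, !s, -1) (y, !s, 1)).ng (by simp))
    rcases lt_or_ge t p with c | c
    · have := (Hr.uq ((Y.sh (t - p) (by omega)) : G.Si 0 p q (t, !s, 1) (y + (p - t), s, -1)) y (y + R) (by omega))
      simp at this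
    rcases lt_trichotomy t z with d | rfl | d
    · exact np.h2a s p z y t (by omega) (by omega) c d (by omega) (CZ.mo (by omega)) (H.mo (by omega))
    · have := (Hr.uq ((((CZ.rv (by simp)) : G.Si _ _ _ (t, !s, -1) (p, !s, 1)).ng (by simp)) : G.Si _ _ _ (t, !s, 1) (p, !s, -1)) p y (by omega))
      omega
    · exact F4 (s := !s) (p := z) (q := y) (z := t) np hN hR (by omega) (by omega) d.le (by omega) (Si.mo (D.rv (by simp)) (by omega))
        (by rw [Bool.not_not]; exact (H.mo (by omega)))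
  · have := (H.fb (by simp))
    exact (np.g1 ((Y.tr ((H.ng (by simp)) : G.Si _ _ _ (y, s, -1) (t, !s, 1)) (by omega))) (by omega))
  · have := (H.fc (by simp))
    have Hr : G.Si R (p - R) (y + R) (t, s, 1) (y, !s, 1) := (H.rv (by simp))
    rcases le_or_gt t p with c | c
    · have := (Hr.uq ((CZ.sh (t - p) (by omega)) : G.Si 0 p (q - R - 1) (t, s, 1) (z + (p - t), s, -1)) z y (by omega))
      simp at this
    · exact (np.g1 ((Hr.tr D (by omega))) (by omega))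

theorem step2 (np : G.NP r α ω) (hN : G.S.card ≤ N) {R R' R'' : ℕ} (hR : r + 2 * nb N r + 2 ≤ R) (hR' : 2 * R + 2 * nb N R + 2 ≤ R')
    (hR'' : 2 * R' + 4 * nb N R' + 2 ≤ R'') {p q : ℤ} (h1 : α ≤ p - R'') (h2 : q + R'' ≤ ω) (h3 : p ≤ q)
    (C : G.Si R'' (p - R'') (q + R'') (p, s, 1) (q, !s, 1)) : False := by
  classical
  have f1 := (C.fc (by simp))
  have b1 := ret (r := R') (s := s) (p := p) (q := q) hN (.inl ⟨rfl, rfl⟩) (n := 2 * nb N R') (by omega)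
    (fun u a b => (C.sh u (by omega))) (fun u => Set.Icc (p + u - R') (q + u + R')) fun u _ v hv => by simp only [Set.mem_Icc] at *; omega
  have b2 := ret (r := R') (s := s) (p := p) (q := q) hN (.inr ⟨rfl, rfl⟩) (n := 2 * nb N R') (by omega)
    (fun u a b => (((C.rv (by simp)) : G.Si _ _ _ (q, s, 1) (p, !s, 1)).sh u (by omega))) (fun u => Set.Icc (p + u - R') (q + u + R'))
    fun u _ v hv => by simp only [Set.mem_Icc] at *; omega
  obtain ⟨u, hu, g1, g2⟩ : ∃ u ∈ Icc (0 : ℤ) (2 * nb N R'),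
      (∃ b, G.Sg R' (Set.Icc (p + u - R') (q + u + R')) (p + u, !s, 1) b ∧ b.1 ∈ Set.Icc (p + u - R') (q + u + R')) ∧
      ∃ b, G.Sg R' (Set.Icc (p + u - R') (q + u + R')) (q + u, !s, 1) b ∧ b.1 ∈ Set.Icc (p + u - R') (q + u + R') := by
    by_contra c
    have := (card_le_card (s := Icc (0 : ℤ) (2 * nb N R')) fun u hu => mem_union.2 (by
      by_contra d
      simp only [mem_filter, hu, true_and, not_or, not_not] at d
      exact c ⟨u, hu, d⟩)).trans ((card_union_le _ _).trans (add_le_add b1 b2))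
    simp at this
    omega
  have hu := mem_Icc.1 hu
  have C : G.Si R' (p + u - R') (q + u + R') (p + u, s, 1) (q + u, !s, 1) := (C.sh u (by omega))
  have h1 : α ≤ p + u - R' := by omega
  have h2 : q + u + R' ≤ ω := by omega
  have h3 : p + u + R' < q + u := by omega
  clear b1 b2 f1
  generalize p + u = p, q + u = q at *
  have Cr : G.Si R' (p - R') (q + R') (q, s, 1) (p, !s, 1) := (C.rv (by simp))
  obtain ⟨z, ⟨z1, z2⟩, Z | Z | Z | Z⟩ := cases4 g2 <;> change G.Si R' (p - R') (q + R') _ _ at Z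
  · exact (np.g1 (Z.mo (by omega)) (by omega))
  · have := (Z.fb (by simp))
    have := (((C.tr Z (by omega)) : G.Si R' 1 0 _ _).fb (by simp))
    exact F4 np hN (R := R) hR (by omega) (by omega) (by omega) (by omega) (C.mo (by omega)) (Z.mo (by omega))
  swap
  · rw [Bool.not_not] at Z
    have := (Z.fc (by simp))
    exact (np.g1 ((C.tr Z (by omega))) (by omega))
  rw [Bool.not_not] at Z
  have := (Z.fb (by simp))
  have := (((C.tr Z (by omega)) : G.Si R' 1 0 _ _).fb (by simp))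
  obtain ⟨y, ⟨y1, y2⟩, Y | Y | Y | Y⟩ := cases4 g1 <;> change G.Si R' (p - R') (q + R') _ _ at Y
  · exact (np.g1 (Y.mo (by omega)) (by omega))
  · have := (Y.fb (by simp))
    have := (((Cr.tr Y (by omega)) : G.Si R' 1 0 _ _).fb (by simp))
    exact (np.g1 ((((((Z.rv (by simp)) : G.Si _ _ _ (z, !s, -1) (q, s, 1)).tr Cr (by omega)) : G.Si R' (p + 1) (q - 1) _ _).tr Y (by omega))) (by omega))
  swap
  · rw [Bool.not_not] at Y
    have := (Y.fc (by simp))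
    exact (np.g1 ((Cr.tr Y (by omega))) (by omega))
  rw [Bool.not_not] at Y
  have := (Y.fb (by simp))
  have := (((Cr.tr Y (by omega)) : G.Si R' 1 0 _ _).fb (by simp))
  have := ((((((((Y.rv (by simp)) : G.Si _ _ _ (y, !s, -1) (p, s, 1)).tr C (by omega)) : G.Si R' 1 0 _ _).tr Z (by omega)) : G.Si R' 1 0 _ _)).fc (by simp))
  rcases lt_or_ge z y with c | c
  · exact step3 np hN hR hR' h1 h2 (by omega) c (by omega) C Y Z
  · exact np.h2a s (p + 1) (z - 1) (q - 1) (y + 1) (by omega) (by omega) (by omega) (by omega) (by omega)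
      ((((C.sh 1 (by omega)) : G.Si r (p + 1) (q - 1) _ (q + 1, !s, 1)).tr ((Z.sh 1 (by omega)) : G.Si r (p + 1) (q - 1) _ _) (by omega)))
      ((((Cr.sh (-1) (by omega)) : G.Si r (p + 1) (q - 1) _ (p - 1, !s, 1)).tr ((Y.sh (-1) (by omega)) : G.Si r (p + 1) (q - 1) _ _) (by omega)))

def up (N r : ℕ) : ℕ := 2 * r + 4 * nb N r + 2

theorem geo (np : G.NP r α ω) (hN : G.S.card ≤ N) (h0 : 0 ≤ α) (hn : ω ≤ G.n) (hl : α + nb N ((up N)^[4] r) ≤ ω) : False := by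
  classical
  obtain ⟨R, e1⟩ : ∃ R, R = up N r := ⟨_, rfl⟩
  obtain ⟨R', e2⟩ : ∃ R', R' = up N R := ⟨_, rfl⟩
  obtain ⟨r1, e3⟩ : ∃ r1, r1 = up N R' := ⟨_, rfl⟩
  obtain ⟨r0, e4⟩ : ∃ r0, r0 = up N r1 := ⟨_, rfl⟩
  rw [show (up N)^[4] r = r0 by simp [e1, e2, e3, e4]] at hl
  simp only [up] at e1 e2 e3 e4
  have nc : ∀ x y s l h, α ≤ x → x ≤ ω → α ≤ y → y ≤ ω → l ≤ min x y - r1 → max x y + r1 ≤ h → ¬ G.Si r1 l h (x, s, 1) (y, !s, 1) :=
    fun x y s l h a b c d e f H => by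
      have := H.ok1.2.2 _ np.a
      have := H.ok1.2.2 _ np.w
      have := H.ok2.2.2 _ np.a
      have := H.ok2.2.2 _ np.w
      dsimp only at *
      rcases le_total x y with t | t
      · exact step2 (R := R) (R' := R') (R'' := r1) np hN (by omega) (by omega) (by omega) (by omega) (by omega) t (H.mo (by omega))
      · exact step2 (R := R) (R' := R') (R'' := r1) np hN (by omega) (by omega) (by omega) (by omega) (by omega) t
          (((H.rv (by simp)) : G.Si _ _ _ (y, s, 1) (x, !s, 1)).mo (by omega))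
  have key : ∀ (ρ : ℕ) x s, r1 ≤ ρ → α ≤ x → x ≤ ω → (∃ b, G.Sg ρ (Set.Icc α ω) (x, s, 1) b ∧ b.1 ∈ Set.Icc α ω) →
      ∃ y s', α ≤ y ∧ y ≤ ω ∧ G.Si ρ α ω (x, s, 1) (y, s', -1) := fun ρ x s e a b g => by
    obtain ⟨y, ⟨y1, y2⟩, H | H | H | H⟩ := cases4 g <;> change G.Si ρ α ω _ _ at H
    · exact ((np.g1 (H.mo (by omega)) (by omega))).elim
    · exact ⟨y, _, y1, y2, H⟩
    · exact ⟨y, _, y1, y2, H⟩
    · have := H.ok1.2.2 _ np.a
      have := H.ok1.2.2 _ np.w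
      have := H.ok2.2.2 _ np.a
      have := H.ok2.2.2 _ np.w
      dsimp only at *
      exact (nc x y s α ω a b y1 y2 (by omega) (by omega) (H.mo (by omega))).elim
  have ch := fun ρ => charge (r := ρ) hN ((Icc α ω ×ˢ (univ : Finset Bool)).filter fun d =>
      ¬ ∃ b, G.Sg ρ (Set.Icc α ω) (d.1, d.2, 1) b ∧ b.1 ∈ Set.Icc α ω) (·.1) (·.2) (fun _ => Set.Icc α ω)
    (fun i hi => by have := mem_Icc.1 (mem_product.1 (mem_filter.1 hi).1).1; omega)
    (fun i _ j _ e e' => Prod.ext e e') (fun i _ j hj _ _ => mem_Icc.1 (mem_product.1 (mem_filter.1 hj).1).1) fun i hi => (mem_filter.1 hi).2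
  obtain ⟨x, s, y, s', a1, a2, a3, W⟩ : ∃ x s y s', α ≤ x ∧ x < y ∧ y ≤ ω ∧ G.Si r0 α ω (x, s, 1) (y, s', -1) := by
    obtain ⟨⟨x, s⟩, hd, g⟩ : ∃ d ∈ Icc α ω ×ˢ (univ : Finset Bool), ∃ b, G.Sg r0 (Set.Icc α ω) (d.1, d.2, 1) b ∧ b.1 ∈ Set.Icc α ω := by
      by_contra c
      have := ch r0
      rw [filter_true_of_mem (by exact fun u hu h => c ⟨u, hu, h⟩)] at this
      simp at this
      omega
    have hd := mem_Icc.1 (mem_product.1 hd).1
    obtain ⟨y, s', y1, y2, H⟩ := key r0 x s (by omega) hd.1 hd.2 g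
    rcases (H.fb (by simp)) with c | c
    · exact ⟨x, s, y, s', hd.1, by omega, y2, H⟩
    · exact ⟨y, !s', x, !s, y1, by omega, hd.2, (((H.rv (by simp)) : G.Si _ _ _ (y, !s', -1) (x, !s, 1)).ng (by simp))⟩
  have w1 := W.ok1.2.2 _ np.a
  have w2 := W.ok2.2.2 _ np.w
  dsimp only at w1 w2
  have Ws : ∀ u : ℤ, 0 ≤ u → u ≤ nb N r1 → G.Si r1 α ω (x - u, s, 1) (y + u, s', -1) := fun u a b => by
    have := Sg.sh (r' := r1) (I' := Set.Icc α ω) W (-u) (by omega) (by omega) fun v k hv => by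
      have := k.2.2 _ np.a
      have := k.2.2 _ np.w
      simp only [Set.mem_Icc] at *
      omega
    simpa [MP_874169_lc.sh, Si, sub_eq_add_neg] using this
  refine cnt ((Icc α x ×ˢ (univ : Finset Bool)).filter fun d => ∃ t s', d.1 < t ∧ t ≤ ω ∧ G.Si r1 α ω (d.1, d.2, 1) (t, s', -1))
    (((Icc α ω ×ˢ (univ : Finset Bool)).filter fun d =>
      ¬ ∃ b, G.Sg r1 (Set.Icc α ω) (d.1, d.2, 1) b ∧ b.1 ∈ Set.Icc α ω).image fun d => (d.1, !d.2))
    (Icc (x - nb N r1) x ×ˢ {s}) (fun d hd => ?_) ((card_image_le.trans (ch r1)).trans_lt (by simp))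
    (fun d e => G.Si r1 α ω (e.1, e.2, 1) (d.1, d.2, -1)) (fun d hd n => ?_) fun d d' e hd hd' H H' => ?_
  · obtain ⟨v, t⟩ := d
    simp only [mem_product, mem_Icc, mem_singleton] at hd
    obtain ⟨⟨d1, d2⟩, rfl⟩ := hd
    have := Ws (x - v) (by omega) (by omega)
    rw [sub_sub_cancel] at this
    exact mem_filter.2 ⟨by simp; omega, _, _, by omega, by omega, this⟩
  · obtain ⟨v, t⟩ := d
    obtain ⟨hv, a, sa, a4, a5, A⟩ := mem_filter.1 hd
    have hv := mem_Icc.1 (mem_product.1 hv).1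
    dsimp only at *
    obtain ⟨b, sb, b1, b2, B⟩ := key r1 v (!t) le_rfl hv.1 (by omega) (by_contra fun c => n (mem_image.2
      ⟨(v, !t), mem_filter.2 ⟨by simp; omega, c⟩, by simp⟩))
    have Br : G.Si r1 α ω (b, !sb, 1) (v, t, -1) := (((B.rv (by simp)) : G.Si _ _ _ (b, !sb, -1) (v, t, 1)).ng (by simp))
    have := (A.fb (by simp))
    rcases (B.fb (by simp)) with c | c
    · have K : G.Si r1 (v + 1) ω (b, !sb, 1) (a, sa, 1) := (Br.tr ((A.ng (by simp)) : G.Si _ _ _ (v, t, -1) (a, sa, 1)) (by omega))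
      have := K.ok1.2.2 _ np.w
      have := K.ok2.2.2 _ np.w
      dsimp only at *
      rcases Bool.eq_or_eq_not sa (!sb) with rfl | rfl
      · exact ((np.g1 (K.mo (by omega)) (by omega))).elim
      · exact (nc b a _ _ _ b1 b2 (by omega) a5 (by omega) (by omega) K).elim
    · refine ⟨(b, !sb), mem_filter.2 ⟨by simp; omega, v, t, by omega, by omega, Br⟩, fun c => ?_, Br⟩
      simp only [mem_product, mem_Icc, mem_singleton] at c
      have := Ws (x - b) (by omega) (by omega)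
      rw [sub_sub_cancel, ← c.2] at this
      have := (Br.uq this α ω (by omega))
      omega
  · have hd := mem_Icc.1 (mem_product.1 (mem_filter.1 hd).1).1
    have hd' := mem_Icc.1 (mem_product.1 (mem_filter.1 hd').1).1
    have := (H.uq H' α ω (by omega))
    exact Prod.ext this.1 this.2.1

end Geo

end Pool.Agent.H.MP_874169_lc
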