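import Pool.Agent.H.MP_874169_lc.B

set_option autoImplicit false

namespace Pool.Agent.H.MP_874169_lc

open Function FreeGroup

section Pr

variable {F : Type} [Group F]

def Pr (g : ℤ → F) : ℤ → ℕ → F
  | _, 0 => 1
  | a, k + 1 => g a * Pr g (a + 1) k

theorem Pr_add (g : ℤ → F) : ∀ (k l : ℕ) (a : ℤ), Pr g a (k + l) = Pr g a k * Pr g (a + k) l
  | 0, l, a => by simp [Pr]
  | k + 1, l, a => by
    rw [Nat.add_right_comm, Pr, Pr, Pr_add g k l, mul_assoc]
    congr 3
    push_cast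
    ring

theorem Pr_congr {g g' : ℤ → F} : ∀ (k : ℕ) (a : ℤ), (∀ x, a ≤ x → x < a + k → g x = g' x) → Pr g a k = Pr g' a k
  | 0, _, _ => rfl
  | k + 1, a, h => by rw [Pr, Pr, h a le_rfl (by omega), Pr_congr k (a + 1) fun x a b => h x (by omega) (by omega)]

theorem dyck (g : ℤ → F) (P : ℤ → ℤ) (D : ℤ → Prop) (h1 : ∀ x, D x → D (P x) ∧ P (P x) = x ∧ P x ≠ x ∧ g (P x) = (g x)⁻¹)
    (h2 : ∀ x, ¬ D x → g x = 1) (nc : ∀ x y, D x → D y → x < y → y < P x → x < P y ∧ P y < P x) (k : ℕ) :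
    ∀ a, (∀ x, D x → a ≤ x → x < a + k → a ≤ P x ∧ P x < a + k) → Pr g a k = 1 := by
  induction k using Nat.strong_induction_on with
  | _ k ih =>
  intro a h
  rcases k with _ | k
  · rfl
  by_cases d : D a
  · have := h a d le_rfl (by omega)
    obtain ⟨a1, a2, a3, a4⟩ := h1 a d
    obtain ⟨m, hm⟩ : ∃ m : ℕ, P a = a + 1 + m := ⟨(P a - a - 1).toNat, by omega⟩
    obtain ⟨l, rfl⟩ : ∃ l, k = m + (l + 1) := ⟨k - m - 1, by omega⟩
    rw [Pr, Pr_add, Pr, ← hm, a4, ih m (by omega) _ fun x dx x1 x2 => ?_, ih l (by omega) _ fun x dx x1 x2 => ?_]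
    · simp
    · have := h x dx (by omega) (by omega)
      obtain ⟨b1, b2, b3, -⟩ := h1 x dx
      refine ⟨by_contra fun n => ?_, by omega⟩
      have e1 : P x ≠ a := fun e => by rw [e] at b2; omega
      have e2 : P x ≠ P a := fun e => by rw [e, a2] at b2; omega
      have := nc a (P x) d b1 (by omega) (by omega)
      omega
    · have := nc a x d dx (by omega) (by omega)
      omega
  · rw [Pr, h2 a d, one_mul]
    refine ih k (by omega) _ fun x dx x1 x2 => ?_
    have := h x dx (by omega) (by omega)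
    have : P x ≠ a := fun e => d (e ▸ (h1 x dx).1)
    omega

theorem srt {ι : Type} (g : ℤ → F) (pt : ι → ℤ) (c : ι → F) : ∀ (k : ℕ) (a : ℤ) (L : List ι), L.Pairwise (fun i j => pt i < pt j) →
    (∀ j ∈ L, a ≤ pt j ∧ pt j < a + k ∧ g (pt j) = c j) → (∀ x, a ≤ x → x < a + k → (∀ j ∈ L, pt j ≠ x) → g x = 1) →
    Pr g a k = (L.map c).prod
  | 0, _, [], _, _, _ => rfl
  | 0, _, j :: L, _, h, _ => by have := h j (by simp); omega
  | k + 1, a, L, p, h, h' => by
    by_cases e : ∀ j ∈ L, pt j ≠ a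
    · rw [Pr, h' a le_rfl (by omega) e, one_mul]
      exact srt g pt c k _ L p (fun j hj => by have := h j hj; have := e j hj; exact ⟨by omega, by omega, by tauto⟩)
        fun x a b => h' x (by omega) (by omega)
    · rcases L with _ | ⟨j, L⟩
      · simp at e
      have p := List.pairwise_cons.1 p
      have hj := h j (by simp)
      have e : pt j = a := by
        by_contra n
        refine e fun i hi => ?_
        rcases List.mem_cons.1 hi with rfl | hi
        · exact n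
        · have := p.1 i hi; omega
      rw [Pr, List.map_cons, List.prod_cons, ← hj.2.2, e, srt g pt c k _ L p.2 (fun i hi => ?_) fun x a b n => h' x (by omega) (by omega) ?_]
      · have := h i (by simp [hi]); have := p.1 i hi; exact ⟨by omega, by omega, by tauto⟩
      · intro i hi
        rcases List.mem_cons.1 hi with rfl | hi
        exacts [by omega, n i hi]

end Pr

variable {A Q : Type}

def iv (a : A × Bool) : A × Bool := (a.1, !a.2)
def ori (o : ℤ) (w : List (A × Bool)) : List (A × Bool) := if o = 1 then w else invRev w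
def act (δ : Q → A × Bool → Q) (w : List (A × Bool)) (q : Q) : Q := w.foldl δ q
def pw (n : ℕ) (p : List (A × Bool)) : List (A × Bool) := (List.replicate n p).flatten

theorem ori_mul {o e : ℤ} (h : o = 1 ∨ o = -1) (h' : e = 1 ∨ e = -1) (w : List (A × Bool)) : ori (o * e) w = ori e (ori o w) := by
  rcases h with rfl | rfl <;> rcases h' with rfl | rfl <;> simp [ori]

theorem ori_nil (o : ℤ) : ori o ([] : List (A × Bool)) = [] := by simp [ori]

theorem act_append (δ : Q → A × Bool → Q) (u v : List (A × Bool)) : act δ (u ++ v) = act δ v ∘ act δ u := by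
  ext; simp [act]

structure Txt (A : Type) extends Geo (A × Bool) where
  γ : ℤ → FreeGroup A
  l2 : ∀ x, lt (x + 1) (-1) = iv (lt x 1)
  g1 : ∀ x, 0 ≤ x → x < n → γ x = FreeGroup.mk [lt x 1] * γ (x + 1)
  gn : γ n = 1
  b1 : ∀ x, toGeo.ok 0 x → E false x = -1 ∧ γ (P false x) = γ x
  nc : ∀ x y, toGeo.ok 0 x → toGeo.ok 0 y → x < y → y < P false x → x < P false y ∧ P false y < P false x
  cl : ∀ x c, toGeo.ok 0 x → 0 ≤ c → c ≤ x → γ c = 1 → c ≤ P false x

namespace Txt

variable (T : Txt A) (δ : Q → A × Bool → Q) (ρ : ℕ)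

def seg (o : ℤ) : ℤ → ℕ → List (A × Bool)
  | _, 0 => []
  | x, k + 1 => T.lt x o :: seg o (x + o) k

def Im (x o : ℤ) : Set Q := Set.range (act δ (T.seg o (x - o * ρ) ρ))

def Pump (e : ℕ) (α ω : ℤ) : Prop := ∃ u : ℤ → List (A × Bool), (∀ x, u x ≠ [] → T.ok ρ x) ∧
  (∀ x, T.ok 0 x → u (T.P true x) = ori (T.E true x) (u x)) ∧
  (∀ (c : ℤ) (k : ℕ), 0 ≤ c → c + k = T.n → T.γ c = 1 → c ≤ α ∨ ω < c → Pr (fun x => FreeGroup.mk (u x) * FreeGroup.mk [T.lt x 1]) c k = 1) ∧
  (∀ x o, o = 1 ∨ o = -1 → ∀ q ∈ T.Im δ ρ x o, act δ (ori o (u x)) q = q) ∧ ∃ x p, T.ok ρ x ∧ p ≠ [] ∧ u x = pw e p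

variable {T δ ρ}

theorem seg_add (o : ℤ) : ∀ (k l : ℕ) (x : ℤ), T.seg o x (k + l) = T.seg o x k ++ T.seg o (x + o * k) l
  | 0, l, x => by simp [seg]
  | k + 1, l, x => by
    rw [Nat.add_right_comm, seg, seg, seg_add o k l, List.cons_append]
    congr 3
    push_cast
    ring

theorem seg_len (o : ℤ) : ∀ (k : ℕ) (x : ℤ), (T.seg o x k).length = k
  | 0, _ => rfl
  | k + 1, x => by simp [seg, seg_len o k]

theorem lt_inv {o : ℤ} (h : o = 1 ∨ o = -1) (x : ℤ) : T.lt (x + o) (-o) = iv (T.lt x o) := by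
  rcases h with rfl | rfl
  · exact T.l2 x
  · have := T.l2 (x + -1)
    rw [show x + -1 + 1 = x by ring] at this
    simp [this, iv]

theorem seg_inv {o : ℤ} (h : o = 1 ∨ o = -1) : ∀ (k : ℕ) (x : ℤ), invRev (T.seg o x k) = T.seg (-o) (x + o * (k : ℕ)) k
  | 0, _ => rfl
  | k + 1, x => by
    rw [seg, invRev_cons, seg_inv h k, seg_add (-o) k 1, show x + o * ((k + 1 : ℕ) : ℤ) + -o * k = x + o by push_cast; ring,
      show x + o + o * k = x + o * ((k + 1 : ℕ) : ℤ) by push_cast; ring]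
    simp [seg, lt_inv h, invRev, iv]

theorem seg_γ {o : ℤ} (h : o = 1 ∨ o = -1) : ∀ (k : ℕ) (x : ℤ), 0 ≤ x → x ≤ T.n → 0 ≤ x + o * k → x + o * k ≤ T.n →
    T.γ x = FreeGroup.mk (T.seg o x k) * T.γ (x + o * k)
  | 0, _, _, _, _, _ => by simp [seg, ← one_eq_mk]
  | k + 1, x, a, b, c, d => by
    have e : x + o * ((k + 1 : ℕ) : ℤ) = x + o + o * k := by push_cast; ring
    rw [e] at c d ⊢
    rw [seg, ← List.singleton_append, ← mul_mk, mul_assoc]
    rcases h with rfl | rfl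
    · rw [← seg_γ (.inl rfl) k _ (by omega) (by omega) c d, T.g1 x a (by omega)]
    · rw [← seg_γ (.inr rfl) k _ (by omega) (by omega) c d, T.g1 (x + -1) (by omega) (by omega)]
      have := lt_inv (T := T) (.inr rfl) x
      simp only [neg_neg] at this
      rw [this, show [iv (T.lt x (-1))] = invRev [T.lt x (-1)] by simp [invRev, iv], ← inv_mk, mul_inv_cancel_left]
      simp

theorem seg_congr {o o' : ℤ} : ∀ (k : ℕ) (x y : ℤ), (∀ i : ℕ, i < k → T.lt (x + o * i) o = T.lt (y + o' * i) o') → T.seg o x k = T.seg o' y k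
  | 0, _, _, _ => rfl
  | k + 1, x, y, h => by
    rw [seg, seg, seg_congr (o' := o') k (x + o) (y + o')]
    · simpa using h 0 (by omega)
    · intro i hi
      have := h (i + 1) (by omega)
      push_cast at this
      rwa [mul_add, mul_add, mul_one, mul_one, add_comm _ o, add_comm _ o', ← add_assoc, ← add_assoc] at this

theorem im_eq {I : Set ℤ} {a b : St} (h : T.Sg ρ I a b) : T.Im δ ρ a.1 a.2.2 = T.Im δ ρ b.1 b.2.2 := by
  rw [Im, Im, seg_congr ρ _ (b.1 - b.2.2 * ρ) fun i hi => ?_]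
  have := h.cmp (u := i - ρ) (by omega) (by omega)
  rwa [mul_sub, mul_sub, ← add_sub_assoc, ← add_sub_assoc, add_sub_right_comm, add_sub_right_comm b.1] at this

theorem Pr_conj (u : ℤ → FreeGroup A) : ∀ (k : ℕ) (a : ℤ), 0 ≤ a → a + k ≤ T.n →
    Pr (fun x => u x * FreeGroup.mk [T.lt x 1]) a k = T.γ a * Pr (fun x => (T.γ x)⁻¹ * u x * T.γ x) a k * (T.γ (a + k))⁻¹
  | 0, a, _, _ => by simp [Pr]
  | k + 1, a, h, h' => by
    rw [Pr, Pr, Pr_conj u k _ (by omega) (by omega), show a + ((k + 1 : ℕ) : ℤ) = a + 1 + k by push_cast; ring]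
    have := T.g1 a h (by omega)
    rw [← mul_inv_eq_iff_eq_mul] at this
    rw [← this]
    group

end Txt

theorem Geo.Sg.bk {β : Type} {G : Geo β} {r : ℕ} {I : Set ℤ} {a c d : St} (h : G.Sg r I a c) (h' : G.Sg r I d c) (hd : d.1 ∈ I) :
    G.Sg r I (MP_874169_lc.rv (G.f a)) (MP_874169_lc.rv d) := by
  have h' := h'.rv
  obtain ⟨u, k, k0, rfl, p, v⟩ := h
  obtain ⟨-, j, j0, e, q, w⟩ := h'
  have e1 := p.it_rv (k - 1) (by omega)
  rw [show k - (k - 1) = 1 by omega, iterate_one] at e1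
  have kj : k ≤ j := by
    by_contra n
    have := v (k - j) (by omega) (by omega)
    have e2 := p.it_rv j (by omega)
    rw [e] at e2
    exact this (by rw [show (G.f^[k - j] a).1 = d.1 from (congrArg (·.1) e2).symm]; exact hd)
  rw [← e1, ← e]
  refine ⟨p.un u 1 k0 |> fun t => by rw [e1]; exact t, j - (k - 1), by omega,
    by rw [← iterate_add_apply, Nat.sub_add_cancel (by omega)], fun i hi => ?_, fun i a b => ?_⟩ <;> rw [← iterate_add_apply]
  exacts [q _ (by omega), w _ (by omega) (by omega)]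

def pt {ι : Type} (s : ι → Bool) (xa xd : ι → ℤ) (t : Bool) (j : ι) : ℤ := if s j = t then xd j else xa j

open Geo in
theorem Txt.ins {T : Txt A} {δ : Q → A × Bool → Q} {ρ e : ℕ} {α ω : ℤ} {ι : Type} (nx : ι → ι) (xa xd o : ι → ℤ) (s : ι → Bool) (lo hi : ℤ)
    (V : ι → List (A × Bool)) (L : List ι) (bij : Bijective nx) (h1 : α ≤ lo) (h2 : hi ≤ ω) (h3 : ω < T.n) (h4 : lo ≤ hi)
    (hs : ∀ j, T.Sg ρ (Set.Icc lo hi) (xd j, s j, o j) (xa (nx j), s (nx j), o (nx j)))
    (mem : ∀ j, xa j ∈ Set.Icc lo hi ∧ xd j ∈ Set.Icc lo hi) (hL : ∀ j, j ∈ L)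
    (ord : L.Pairwise fun i j => ∀ t, pt s xa xd t i < pt s xa xd t j)
    (cj : ∀ j, (T.γ (xa (nx j)))⁻¹ * FreeGroup.mk (V j) * T.γ (xa (nx j)) = (T.γ (xd (nx j)))⁻¹ * FreeGroup.mk (V (nx j)) * T.γ (xd (nx j)))
    (tr : ∀ j, (∀ q ∈ T.Im δ ρ (xd j) (o j), act δ (V j) q = q) ∧ ∀ q ∈ T.Im δ ρ (xd j) (-o j), act δ (invRev (V j)) q = q)
    (pm : ∃ j, ∀ i, i = j ∨ i = nx j → ∀ o, ∃ p, p ≠ [] ∧ ori o (V i) = pw e p) : T.Pump δ ρ e α ω := by
  classical
  set I := Set.Icc lo hi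
  have pi : ∀ t i j, pt s xa xd t i = pt s xa xd t j → i = j := fun t i j e => by_contra fun n =>
    @List.Pairwise.forall _ _ _ ⟨fun _ _ h => h.symm⟩ (ord.imp (S := fun i j => pt s xa xd t i ≠ pt s xa xd t j) fun h => (h t).ne)
      _ (hL i) _ (hL j) n e
  let Tg : St → ι → Prop := fun a j => T.Sg ρ I a (xa (nx j), s (nx j), o (nx j)) ∨ T.Sg ρ I a (xd j, !s j, o j)
  have uq : ∀ x t o1 o2 i j, Tg (x, t, o1) i → Tg (x, t, o2) j → i = j ∧ o1 = o2 := fun x t o1 o2 i j a b => by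
    have K : ∀ {o1 i}, Tg (x, t, o1) i → ∃ t' k, T.Sg ρ I (x, t, o1) (pt s xa xd (!t') k, t', o k) ∧ pt s xa xd (!t') k ∈ I ∧
        (k = nx i ∧ s k = t' ∨ k = i ∧ s k = !t') := fun {o1 i} a => by
      rcases a with a | a
      · exact ⟨s (nx i), nx i, by simpa [pt] using a, by simpa [pt] using (mem _).1, .inl ⟨rfl, rfl⟩⟩
      · exact ⟨!s i, i, by simpa [pt] using a, by simpa [pt] using (mem _).2, .inr ⟨rfl, by simp⟩⟩
    obtain ⟨t1, k1, a, m1, c1⟩ := K a
    obtain ⟨t2, k2, b, m2, c2⟩ := K b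
    have e : o1 = o2 := by
      by_contra n
      have : o2 = -o1 := by have := a.1; have := b.1; simp only [un] at *; omega
      have e := a.ng.uniq (this ▸ b) m1 m2
      simp only [ng, Prod.mk.injEq] at e
      obtain ⟨e1, rfl, e3⟩ := e
      obtain rfl := pi _ _ _ e1
      have := (hs k1).1
      simp only [un] at this
      omega
    subst e
    have e := a.uniq b m1 m2
    simp only [Prod.mk.injEq] at e
    obtain ⟨e1, rfl, -⟩ := e
    obtain rfl := pi _ _ _ e1
    refine ⟨?_, rfl⟩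
    rcases c1 with c1 | c1 <;> rcases c2 with c2 | c2
    exacts [bij.1 (c1.1.symm.trans c2.1), absurd (c1.2.symm.trans c2.2) (by simp), absurd (c2.2.symm.trans c1.2) (by simp),
      c1.1.symm.trans c2.1]
  let w : ℤ → Bool → List (A × Bool) := fun x t => if h : ∃ p : ι × ℤ, Tg (x, t, p.2) p.1 then ori h.choose.2 (V h.choose.1) else []
  have w1 : ∀ {x t o' j}, Tg (x, t, o') j → w x t = ori o' (V j) := fun {x t o' j} h => by
    have e : ∃ p : ι × ℤ, Tg (x, t, p.2) p.1 := ⟨(j, o'), h⟩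
    have := uq _ _ _ _ _ _ e.choose_spec h
    simp only [w, dif_pos e, this]
  have w2 : ∀ x t, (∃ o' j, Tg (x, t, o') j) ∨ (∀ o' j, ¬ Tg (x, t, o') j) ∧ w x t = [] := fun x t => by
    by_cases e : ∃ p : ι × ℤ, Tg (x, t, p.2) p.1
    · exact .inl ⟨_, _, e.choose_spec⟩
    · exact .inr ⟨fun o' j h => e ⟨(j, o'), h⟩, dif_neg e⟩
  have ok : ∀ {a j}, Tg a j → T.ok ρ a.1 ∧ un a := fun h => h.elim (fun h => ⟨h.ok1, h.1⟩) fun h => ⟨h.ok1, h.1⟩
  have st : ∀ {x t o' j}, Tg (x, t, o') j → Tg (T.P t x, t, o' * T.E t x) j := fun {x t o' j} h => by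
    rcases h with h | h
    · exact .inr (by simpa [rv, f] using h.bk (hs j) (mem j).2)
    · exact .inl (by simpa [rv, f] using h.bk (hs j).rv (mem _).1)
  have pr : ∀ x t, T.ok 0 x → w (T.P t x) t = ori (T.E t x) (w x t) := fun x t k => by
    rcases w2 x t with ⟨o', j, h⟩ | h
    · rw [w1 h, w1 (st h), ori_mul (ok h).2 (k.inv t).2.2.1]
    · rcases w2 (T.P t x) t with ⟨o', j, h'⟩ | h'
      · exact (h.1 _ _ ((k.inv t).1 ▸ st h')).elim
      · rw [h.2, h'.2, ori_nil]
  have ps : ∀ {x t o' j}, x ∉ I → Tg (x, t, o') j → Tg (x, !t, o') j := fun {x t o' j} n h => by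
    rcases h with h | h
    · exact .inr (h.rv.split (hs j).rv n (mem j).2)
    · exact .inl (h.rv.split (by simpa [rv] using hs j) n (mem _).1)
  have po : ∀ x, x ∉ I → w x true = w x false := fun x n => by
    rcases w2 x true with ⟨o', j, h⟩ | h
    · exact (w1 h).trans (w1 (ps n h)).symm
    · rcases w2 x false with ⟨o', j, h'⟩ | h'
      · exact (h.1 _ _ (ps n h')).elim
      · rw [h.2, h'.2]
  have sI : ∀ t, Pr (fun x => (T.γ x)⁻¹ * FreeGroup.mk (w x t) * T.γ x) lo (hi + 1 - lo).toNat =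
      (L.map fun j => (T.γ (xd j))⁻¹ * FreeGroup.mk (ori (o j) (V j)) * T.γ (xd j)).prod := fun t => by
    refine srt _ (pt s xa xd t) _ _ _ L (ord.imp fun h => h t) (fun j _ => ?_) fun x a b n => ?_
    · have := mem j
      simp only [I, Set.mem_Icc] at this
      by_cases e : s j = t
      · subst e
        simp only [pt, if_pos]
        exact ⟨by omega, by omega, by rw [w1 (.inl (hs j))]⟩
      · obtain ⟨j, rfl⟩ := bij.2 j
        obtain rfl : t = !s (nx j) := Bool.eq_not_iff.2 (Ne.symm e)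
        simp only [pt, if_neg e]
        refine ⟨by omega, by omega, ?_⟩
        rw [w1 (.inr (hs j).rv)]
        unfold ori
        split_ifs
        · exact cj j
        · have := congrArg (·⁻¹) (cj j)
          simpa [← inv_mk, mul_assoc] using this
    · rcases w2 x t with ⟨o', j, h | h⟩ | h
      · have := h.rv.uniq (hs j).rv ⟨a, by simp only [rv]; omega⟩ (mem j).2
        simp only [rv, Prod.mk.injEq, Bool.not_inj_iff] at this
        exact (n j (hL j) (by simp [pt, this])).elim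
      · have := h.rv.uniq (by simpa [rv] using hs j) ⟨a, by simp only [rv]; omega⟩ (mem _).1
        simp only [rv, Prod.mk.injEq] at this
        exact (n (nx j) (hL _) (by simp [pt, ← this.2.1, this.1])).elim
      · simp [h.2, ← one_eq_mk]
  refine ⟨fun x => w x true, fun x n => ?_, fun x => pr x true, fun c k c0 ck gc hc => ?_, fun x o' ho q hq => ?_, ?_⟩
  · rcases w2 x true with ⟨o', j, h⟩ | h
    exacts [(ok h).1, (n h.2).elim]
  · rw [Txt.Pr_conj _ k c c0 ck.le, ck, T.gn, gc]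
    have e : Pr (fun x => (T.γ x)⁻¹ * FreeGroup.mk (w x true) * T.γ x) c k = Pr (fun x => (T.γ x)⁻¹ * FreeGroup.mk (w x false) * T.γ x) c k := by
      rcases hc with hc | hc
      · obtain ⟨a, ha⟩ : ∃ a : ℕ, c + a = lo := ⟨(lo - c).toNat, by omega⟩
        obtain ⟨b, rfl⟩ : ∃ b, k = a + ((hi + 1 - lo).toNat + b) := ⟨k - a - (hi + 1 - lo).toNat, by omega⟩
        simp only [Pr_add, ha, sI]
        rw [Pr_congr a c fun x _ _ => by rw [po x fun m => by have := m.1; omega],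
          Pr_congr b _ fun x _ _ => by rw [po x fun m => by have := m.2; omega]]
      · exact Pr_congr _ _ fun x _ _ => by rw [po x fun m => by have := m.2; omega]
    rw [e, dyck _ (T.P false) (fun x => ∃ o' j, Tg (x, false, o') j) (fun x ⟨o', j, h⟩ => ?_) (fun x n => ?_)
      (fun x y ⟨_, _, h⟩ ⟨_, _, h'⟩ => T.nc x y ((ok h).1.mono ρ.zero_le) ((ok h').1.mono ρ.zero_le)) k c fun x ⟨_, _, h⟩ a b => ?_]
    · simp
    · have k := (ok h).1.mono ρ.zero_le
      refine ⟨⟨_, _, st h⟩, (k.inv _).1, (k.inv _).2.2.2.1, ?_⟩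
      rw [pr x false k, (T.b1 x k).1, (T.b1 x k).2]
      simp [ori, ← inv_mk, mul_assoc]
    · simp [((w2 x false).resolve_left n).2, ← one_eq_mk]
    · have k := (ok (st h)).1
      have := k.2.1
      have : T.P false x ≠ T.n := fun e => k.nm (e ▸ T.hn)
      exact ⟨T.cl x c ((ok h).1.mono ρ.zero_le) c0 a gc, by dsimp only at *; omega⟩
  · rcases w2 x true with ⟨o1, j, h⟩ | h
    · have e1 : T.Im δ ρ x o1 = T.Im δ ρ (xd j) (o j) ∧ T.Im δ ρ x (-o1) = T.Im δ ρ (xd j) (-o j) := by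
        rcases h with h | h
        · exact ⟨(Txt.im_eq h).trans (Txt.im_eq (hs j)).symm, (Txt.im_eq h.ng).trans (Txt.im_eq (hs j).ng).symm⟩
        · exact ⟨Txt.im_eq h, Txt.im_eq h.ng⟩
      dsimp only
      rw [w1 h]
      rcases (ok h).2 with t | t <;> obtain rfl : o1 = _ := t <;> rcases ho with rfl | rfl
      · exact (tr j).1 q (e1.1 ▸ hq)
      · exact (tr j).2 q (e1.2 ▸ hq)
      · exact (tr j).2 q (e1.2 ▸ hq)
      · simpa [ori] using (tr j).1 q (e1.1 ▸ hq)
    · simp [h.2, ori_nil, act]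
  · obtain ⟨j, hj⟩ := pm
    obtain ⟨x, o', i, hi, h⟩ : ∃ x o' i, (i = j ∨ i = nx j) ∧ Tg (x, true, o') i := by
      cases e : s j
      · have h := st (.inl (hs j))
        rw [e] at h
        by_cases m : T.P false (xd j) ∈ I
        · have k : T.Sg ρ I (xd j, s j, o j) (T.f (xd j, s j, o j)) := by
            obtain ⟨u, k, k0, -, p, -⟩ := hs j
            exact ⟨u, 1, one_pos, rfl, p.mono le_rfl k0, fun i a b => by omega⟩
          have := congrArg (·.2.1) (k.uniq (hs j) (by simpa [f, e] using m) (mem _).1)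
          simp only [f, e, Bool.not_false] at this
          exact ⟨xd (nx j), o (nx j), nx j, .inr rfl, by rw [this]; exact .inl (hs (nx j))⟩
        · exact ⟨_, _, j, .inl rfl, ps m h⟩
      · exact ⟨xd j, o j, j, .inl rfl, by rw [← e]; exact .inl (hs j)⟩
    obtain ⟨p, a, b⟩ := hj i hi o'
    exact ⟨x, p, (ok h).1, a, (w1 h).trans b⟩

end Pool.Agent.H.MP_874169_lc
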