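import Pool.Agent.H.MP_874169_lc.C

set_option autoImplicit false

namespace Pool.Agent.H.MP_874169_lc

open Function FreeGroup Set

variable {A Q : Type} {δ : Q → A × Bool → Q}

theorem pw_succ (n : ℕ) (p : List (A × Bool)) : pw (n + 1) p = p ++ pw n p := by simp [pw, List.replicate_succ]
theorem pw_succ' (n : ℕ) (p : List (A × Bool)) : pw (n + 1) p = pw n p ++ p := by simp [pw, List.replicate_succ']

theorem inv_pw (p : List (A × Bool)) : ∀ n, invRev (pw n p) = pw n (invRev p)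
  | 0 => rfl
  | n + 1 => by rw [pw_succ, pw_succ', invRev_append, inv_pw p n]

theorem act_pw (p : List (A × Bool)) : ∀ n, act δ (pw n p) = (act δ p)^[n]
  | 0 => rfl
  | n + 1 => by rw [pw_succ, act_append, act_pw p n, iterate_succ]

theorem pw_ne {p : List (A × Bool)} (h : p ≠ []) {n : ℕ} (hn : 0 < n) : pw n p ≠ [] := by
  obtain ⟨n, rfl⟩ := Nat.exists_eq_succ_of_ne_zero hn.ne'
  simp [pw_succ, h]

theorem per [Fintype Q] {f : Q → Q} {s : Set Q} (h : MapsTo f s s) (h' : InjOn f s) (e : ℕ) :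
    ∀ q ∈ s, (f^[(Fintype.card Q).factorial])^[e] q = q := fun q hq => by
  obtain ⟨n, n0, hn⟩ := (h.restrict_inj.2 h').mem_periodicPts ⟨q, hq⟩
  have : f^[n] q = q := by rw [← h.coe_iterate_restrict ⟨q, hq⟩, hn]
  exact iterate_fixed (isPeriodicPt_factorial_card_of_mem_periodicPts ⟨n, n0, this⟩) e

def Mv (δ : Q → A × Bool → Q) (w : List (A × Bool)) (a b : Set Q × Set Q) : Prop :=
  MapsTo (act δ w) a.1 b.1 ∧ InjOn (act δ w) a.1 ∧ MapsTo (act δ (invRev w)) b.2 a.2 ∧ InjOn (act δ (invRev w)) b.2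

theorem Mv.app {u v : List (A × Bool)} {a b c : Set Q × Set Q} (h : Mv δ u a b) (h' : Mv δ v b c) : Mv δ (u ++ v) a c := by
  simp only [Mv, invRev_append, act_append]
  exact ⟨h'.1.comp h.1, h'.2.1.comp h.2.1 h.1, h.2.2.1.comp h'.2.2.1, h.2.2.2.comp h'.2.2.2 h'.2.2.1⟩

theorem Mv.loop [Fintype Q] {w : List (A × Bool)} {a : Set Q × Set Q} (h : Mv δ w a a) (e : ℕ) :
    (∀ q ∈ a.1, act δ (pw e (pw (Fintype.card Q).factorial w)) q = q) ∧
      ∀ q ∈ a.2, act δ (invRev (pw e (pw (Fintype.card Q).factorial w))) q = q := by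
  simp only [inv_pw, act_pw]
  exact ⟨per h.1 h.2.1 e, per h.2.2.1 h.2.2.2 e⟩

theorem ori_pw {w : List (A × Bool)} (h : w ≠ []) (e : ℕ) {n : ℕ} (hn : 0 < n) (o : ℤ) : ∃ p, p ≠ [] ∧ ori o (pw e (pw n w)) = pw e p := by
  unfold ori
  split_ifs
  · exact ⟨_, pw_ne h hn, rfl⟩
  · exact ⟨_, by simpa [invRev] using pw_ne h hn, inv_pw ..⟩

namespace Txt

variable {T : Txt A} {ρ e : ℕ} {α ω : ℤ}

noncomputable def rk (T : Txt A) (δ : Q → A × Bool → Q) (o x : ℤ) (k : ℕ) : ℕ := (range (act δ (T.seg o x k))).ncard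

def RK (T : Txt A) (δ : Q → A × Bool → Q) (ρ : ℕ) (α ω : ℤ) : Prop :=
  ∀ (x o : ℤ) (k : ℕ), o = 1 ∨ o = -1 → α + ρ ≤ x → x + ρ ≤ ω → α + ρ ≤ x + o * k → x + o * k + ρ ≤ ω →
    InjOn (act δ (T.seg o x k)) (T.Im δ ρ x o)

theorem rk_le [Finite Q] (o x : ℤ) (i k j : ℕ) : T.rk δ o x (i + k + j) ≤ T.rk δ o (x + o * i) k := by
  simp only [rk, seg_add, act_append]
  rw [range_comp, range_comp]
  exact le_trans ncard_image_le (ncard_le_ncard (image_subset_range ..))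

theorem window [Fintype Q] (F : ℕ → ℕ) : ∀ (d : ℕ) (y : ℤ),
    2 * Fintype.card Q < T.rk δ 1 y (F^[d] 0) + T.rk δ (-1) (y + F^[d] 0) (F^[d] 0) + d →
    ∃ (ρ : ℕ) (α ω : ℤ), y ≤ α ∧ ω ≤ y + F^[d] 0 ∧ α + F ρ ≤ ω ∧ T.RK δ ρ α ω
  | 0, y, h => by
    have e : ∀ o x k, T.rk δ o x k ≤ Fintype.card Q := fun o x k => by
      simpa [rk] using ncard_le_ncard (subset_univ (range (act δ (T.seg o x k))))
    have := e 1 y (F^[0] 0)
    have := e (-1) (y + F^[0] 0) (F^[0] 0)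
    omega
  | d + 1, y, h => by
    rw [iterate_succ_apply'] at h ⊢
    generalize hρ : F^[d] 0 = ρ at *
    have m1 : ∀ (z : ℤ) (k : ℕ), y ≤ z → z + k ≤ y + F ρ → T.rk δ 1 y (F ρ) ≤ T.rk δ 1 z k ∧
        T.rk δ (-1) (y + F ρ) (F ρ) ≤ T.rk δ (-1) (z + k) k := fun z k a b => by
      obtain ⟨i, rfl⟩ : ∃ i : ℕ, z = y + i := ⟨(z - y).toNat, by omega⟩
      obtain ⟨j, hj⟩ : ∃ j : ℕ, F ρ = i + k + j := ⟨F ρ - i - k, by omega⟩
      have h1 := rk_le (T := T) (δ := δ) 1 y i k j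
      have h2 := rk_le (T := T) (δ := δ) (-1) (y + F ρ) j k i
      rw [show j + k + i = F ρ by omega, show y + F ρ + -1 * j = y + i + k by omega] at h2
      rw [← hj, one_mul] at h1
      exact ⟨h1, h2⟩
    by_cases c : ∀ z, y ≤ z → z + ρ ≤ y + F ρ → T.rk δ 1 z ρ + T.rk δ (-1) (z + ρ) ρ ≤ T.rk δ 1 y (F ρ) + T.rk δ (-1) (y + F ρ) (F ρ)
    · refine ⟨ρ, y, _, le_rfl, le_rfl, le_rfl, fun x o k ho a1 a2 a3 a4 => injOn_of_ncard_image_eq (le_antisymm ncard_image_le ?_)⟩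
      have e : act δ (T.seg o x k) '' T.Im δ ρ x o = range (act δ (T.seg o (x - o * ρ) (ρ + k))) := by
        rw [seg_add, act_append, range_comp, sub_add_cancel]
        rfl
      rw [e]
      change T.rk δ o (x - o * ρ) ρ ≤ T.rk δ o (x - o * ρ) (ρ + k)
      rcases ho with rfl | rfl
      · have := m1 (x - 1 * ρ) ρ (by omega) (by omega)
        have := m1 (x - 1 * ρ) (ρ + k) (by omega) (by push_cast; omega)
        have := c (x - 1 * ρ) (by omega) (by omega)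
        omega
      · have := m1 x ρ (by omega) (by omega)
        have h2 := m1 (x - k) (ρ + k) (by omega) (by push_cast; omega)
        have := c x (by omega) (by omega)
        rw [show x - k + ((ρ + k : ℕ) : ℤ) = x + ρ by push_cast; ring] at h2
        rw [show x - -1 * ρ = x + ρ by ring]
        omega
    · push Not at c
      obtain ⟨z, z1, z2, z3⟩ := c
      obtain ⟨ρ', α, ω, a1, a2, a3⟩ := window F d z (by rw [hρ]; omega)
      exact ⟨ρ', α, ω, by omega, by omega, a3⟩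

theorem im_maps (o x : ℤ) (k : ℕ) : MapsTo (act δ (T.seg o x k)) (T.Im δ ρ x o) (T.Im δ ρ (x + o * k) o) := by
  rintro _ ⟨q, rfl⟩
  have e := seg_add (T := T) o ρ k (x - o * ρ)
  rw [add_comm, seg_add, sub_add_cancel, sub_add_eq_add_sub] at e
  have := congrArg (act δ · q) e
  simp only [act_append, comp] at this
  exact ⟨_, this⟩

theorem RK.mv (h : T.RK δ ρ α ω) {x y o : ℤ} {k : ℕ} (ho : o = 1 ∨ o = -1) (e : y = x + o * k) (a1 : α + ρ ≤ x) (a2 : x + ρ ≤ ω)
    (a3 : α + ρ ≤ y) (a4 : y + ρ ≤ ω) : Mv δ (T.seg o x k) (T.Im δ ρ x o, T.Im δ ρ x (-o)) (T.Im δ ρ y o, T.Im δ ρ y (-o)) := by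
  subst e
  have e : x + o * k + -o * k = x := by ring
  refine ⟨im_maps .., h x o k ho a1 a2 a3 a4, ?_, ?_⟩ <;> rw [seg_inv ho]
  · have := im_maps (T := T) (δ := δ) (ρ := ρ) (-o) (x + o * k) k
    rwa [e] at this
  · exact h _ _ k (by omega) a3 a4 (by omega) (by omega)

def Lp {ι : Type} (nx : ι → ι) (w : ι → List (A × Bool)) : ℕ → ι → List (A × Bool)
  | 0, _ => []
  | i + 1, j => w (nx j) ++ Lp nx w i (nx j)

theorem Lp_succ {ι : Type} (nx : ι → ι) (w : ι → List (A × Bool)) : ∀ i j, Lp nx w (i + 1) j = Lp nx w i j ++ w (nx^[i + 1] j)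
  | 0, j => by simp [Lp]
  | i + 1, j => by rw [Lp, Lp_succ nx w i, Lp, List.append_assoc]; rfl

theorem cyc [Fintype Q] (rk : T.RK δ ρ α ω) (ha : α ∈ T.S) (hw : ω ∈ T.S) (h3 : ω < T.n) {ι : Type} (nx : ι → ι) (m : ℕ)
    (hm : ∀ j, nx^[m + 1] j = j) (xa xd o : ι → ℤ) (s : ι → Bool) (lo hi : ℤ) (L : List ι) (h1 : α ≤ lo) (h2 : hi ≤ ω) (h4 : lo ≤ hi)
    (hs : ∀ j, T.Sg ρ (Set.Icc lo hi) (xd j, s j, o j) (xa (nx j), s (nx j), o (nx j)))
    (mem : ∀ j, xa j ∈ Set.Icc lo hi ∧ xd j ∈ Set.Icc lo hi) (hL : ∀ j, j ∈ L)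
    (ord : L.Pairwise fun i j => ∀ t, pt s xa xd t i < pt s xa xd t j) (fw : ∀ j, 0 ≤ o j * (xd j - xa j)) (nz : ∃ j, xd j ≠ xa j) :
    T.Pump δ ρ e α ω := by
  have sur : Surjective nx := fun j => ⟨nx^[m] j, by rw [← iterate_succ_apply' nx, hm]⟩
  have uo : ∀ j, o j = 1 ∨ o j = -1 := fun j => (hs j).1
  let w : ι → List (A × Bool) := fun j => T.seg (o j) (xa j) (o j * (xd j - xa j)).toNat
  have ed : ∀ j, xd j = xa j + o j * ((o j * (xd j - xa j)).toNat : ℕ) := fun j => by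
    rw [Int.toNat_of_nonneg (fw j)]
    rcases uo j with e | e <;> rw [e] <;> ring
  let a : ι → Set Q × Set Q := fun j => (T.Im δ ρ (xd j) (o j), T.Im δ ρ (xd j) (-o j))
  have mv : ∀ j, Mv δ (w (nx j)) (a j) (a (nx j)) := fun j => by
    have k1 := (hs j).ok2
    have k2 := (hs (nx j)).ok1
    have := k1.2.2 _ ha
    have := k1.2.2 _ hw
    have := k2.2.2 _ ha
    have := k2.2.2 _ hw
    have := (mem (nx j)).1
    have := (mem (nx j)).2
    simp only [mem_Icc] at *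
    have := rk.mv (uo _) (ed (nx j)) (by omega) (by omega) (by omega) (by omega)
    rwa [← show T.Im δ ρ (xd j) (o j) = T.Im δ ρ (xa (nx j)) (o (nx j)) from im_eq (hs j),
      ← show T.Im δ ρ (xd j) (-o j) = T.Im δ ρ (xa (nx j)) (-o (nx j)) from im_eq (hs j).ng] at this
  have ml : ∀ i j, Mv δ (Lp nx w i j) (a j) (a (nx^[i] j)) := fun i => by
    induction i with
    | zero => exact fun j => ⟨mapsTo_id _, injOn_id _, mapsTo_id _, injOn_id _⟩
    | succ i ih => exact fun j => (mv j).app (ih _)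
  have cj : ∀ j, Lp nx w (m + 1) j ++ w (nx j) = w (nx j) ++ Lp nx w (m + 1) (nx j) := fun j => by
    rw [← Lp, Lp_succ nx w (m + 1), iterate_succ_apply, hm]
  refine ins nx xa xd o s lo hi (fun j => pw e (pw (Fintype.card Q).factorial (Lp nx w (m + 1) j))) L
    ⟨(HasLeftInverse.injective ⟨nx^[m], hm⟩), sur⟩ h1 h2 h3 h4 hs mem hL ord (fun j => ?_)
    (fun j => by have := ml (m + 1) j; rw [hm] at this; exact this.loop e) ?_
  · have g := seg_γ (T := T) (uo (nx j)) (o (nx j) * (xd (nx j) - xa (nx j))).toNat (xa (nx j)) (hs j).ok2.1 (hs j).ok2.2.1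
      (ed _ ▸ (hs (nx j)).ok1.1) (ed _ ▸ (hs (nx j)).ok1.2.1)
    rw [← ed] at g
    have c : SemiconjBy (FreeGroup.mk (w (nx j))) (FreeGroup.mk (Lp nx w (m + 1) (nx j))) (FreeGroup.mk (Lp nx w (m + 1) j)) := by
      rw [SemiconjBy, mul_mk, mul_mk, cj]
    have c := ((c.pow_right (Fintype.card Q).factorial).pow_right e).eq
    simp only [pw, ← pow_mk]
    change _ = FreeGroup.mk (w (nx j)) * _ at g
    rw [g, mul_inv_rev, mul_assoc, mul_assoc, ← mul_assoc (_ ^ e), ← c, mul_assoc, inv_mul_cancel_left,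
      mul_assoc]
  · obtain ⟨j, hj⟩ := nz
    obtain ⟨j, rfl⟩ := sur j
    have : w (nx j) ≠ [] := fun e => by
      have := congrArg List.length e
      rw [seg_len] at this
      have h := ed (nx j)
      rw [this] at h
      exact hj (by simpa using h)
    have l1 : Lp nx w (m + 1) j ≠ [] := by simp [Lp, this]
    refine ⟨j, ?_⟩
    rintro i (rfl | rfl) o'
    · exact ori_pw l1 e (Nat.factorial_pos _) o'
    · refine ori_pw (fun e => l1 ?_) e (Nat.factorial_pos _) o'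
      simpa [e] using cj j

theorem clo [Fintype Q] (rk : T.RK δ ρ α ω) (ha : α ∈ T.S) (hw : ω ∈ T.S) (h3 : ω < T.n) {x : ℤ} {s : Bool} {I : Set ℤ} (h1 : α ≤ x)
    (h2 : x ≤ ω) (h : T.Sg (ρ + Fintype.card (Set Q × Set Q)) I (x, s, 1) (x, s, 1)) : T.Pump δ ρ e α ω := by
  obtain ⟨u, v, uv, he⟩ : ∃ u v : Fin (Fintype.card (Set Q × Set Q) + 1), u < v ∧
      (T.Im δ ρ (x + u) 1, T.Im δ ρ (x + u) (-1)) = (T.Im δ ρ (x + v) 1, T.Im δ ρ (x + v) (-1)) := by
    obtain ⟨u, v, n, e⟩ := Fintype.exists_ne_map_eq_of_card_lt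
      (fun u : Fin (Fintype.card (Set Q × Set Q) + 1) => (T.Im δ ρ (x + u) 1, T.Im δ ρ (x + u) (-1))) (by simp)
    rcases lt_or_gt_of_ne n with c | c
    exacts [⟨u, v, c, e⟩, ⟨v, u, c, e.symm⟩]
  have := h.ok1.2.2 _ ha
  have := h.ok1.2.2 _ hw
  have := u.2
  have := v.2
  have uv : (u : ℕ) < v := uv
  dsimp only at *
  have mv := rk.mv (x := x + u) (y := x + v) (k := v - u) (.inl rfl) (by omega) (by omega) (by omega) (by omega) (by omega)
  rw [← he] at mv
  obtain ⟨ua, k, k0, ek, p, -⟩ := h.sh (I' := ∅) (r' := ρ) u (by omega) (by omega) (by simp)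
  obtain ⟨y, hy, H⟩ := Geo.cases4 (x := x + 1 * u) (s := s) (Geo.first (I := Icc (x + 1 * u) (x + 1 * u)) ua p k0
    ⟨(congrArg (·.1) ek).ge, (congrArg (·.1) ek).le⟩)
  obtain rfl : y = x + 1 * u := le_antisymm hy.2 hy.1
  rw [one_mul] at H
  rcases H with H | H | H | H
  · exact ins (ι := Unit) id (fun _ => x + u) (fun _ => x + u) (fun _ => 1) (fun _ => s) (x + u) (x + u)
      (fun _ => pw e (pw (Fintype.card Q).factorial (T.seg 1 (x + u) (v - u)))) [()] bijective_id (by omega) (by omega) h3 le_rfl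
      (fun _ => H) (by simp) (by simp) (by simp) (fun _ => rfl) (fun _ => mv.loop e)
      ⟨(), fun _ _ o => ori_pw (fun e => by have := congrArg List.length e; rw [seg_len] at this; simp at this; omega) e
        (Nat.factorial_pos _) o⟩
  · have := Geo.Sg.rev H; omega
  · have := Geo.Sg.rev H; omega
  · have := Geo.Sg.far H; omega

theorem np [Fintype Q] (rk : T.RK δ ρ α ω) (ha : α ∈ T.S) (hw : ω ∈ T.S) (h3 : ω < T.n) (n : ¬ T.Pump δ ρ e α ω) :
    T.NP (ρ + Fintype.card (Set Q × Set Q)) α ω where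
  a := ha
  w := hw
  h1 x y s a b c d H := by
    rcases lt_trichotomy x y with l | rfl | l
    · rw [min_eq_left l.le, max_eq_right l.le] at H
      exact n (cyc rk ha hw h3 (ι := Unit) id 0 (fun _ => rfl) (fun _ => y) (fun _ => x) (fun _ => -1) (fun _ => s) x y [()] a d l.le
        (fun _ => (((H.ng (by simp)) : T.Si _ _ _ (x, s, -1) (y, s, -1)).mo (by omega))) (by simp [l.le]) (by simp) (by simp) (by simp [l.le]) ⟨(), l.ne⟩)
    · exact n (clo rk ha hw h3 a b H)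
    · rw [min_eq_right l.le, max_eq_left l.le] at H
      exact n (cyc rk ha hw h3 (ι := Unit) id 0 (fun _ => rfl) (fun _ => y) (fun _ => x) (fun _ => 1) (fun _ => s) y x [()] c b l.le
        (fun _ => (H.mo (by omega))) (by simp [l.le]) (by simp) (by simp) (by simp [l.le]) ⟨(), l.ne'⟩)
  h2a s t b t' b' a1 a2 a3 a4 a5 H H' := by
    refine n (cyc rk ha hw h3 (ι := Bool) not 1 (by simp) (fun j => if j then b else b') (fun j => if j then t' else t)
      (fun j => if j then 1 else -1) (fun _ => s) t t' [false, true] a1 a2 (by omega) ?_ (by simp; omega) (by simp)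
      (by cases s <;> simp [pt] <;> omega) (by simp; omega) ⟨true, by simp; omega⟩)
    rintro (_ | _)
    exacts [(((H.ng (by simp)) : T.Si _ _ _ (t, s, -1) (b, s, 1)).mo (by omega)), (H'.mo (by omega))]
  h2c s p q b b' a1 a2 a3 a4 a5 H H' := by
    refine n (cyc rk ha hw h3 (ι := Bool) not 1 (by simp) (fun j => if j then q else b) (fun j => if j then b' else p)
      (fun _ => -1) (fun j => if j then !s else s) p q [false, true] a1 a2 (by omega) ?_ (by simp; omega) (by simp)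
      (by cases s <;> simp [pt] <;> omega) (by simp; omega) ⟨false, by simp; omega⟩)
    rintro (_ | _)
    exacts [(((H.ng (by simp)) : T.Si _ _ _ (p, s, -1) (q, !s, -1)).mo (by omega)),
      (((((H'.rv (by simp)) : T.Si _ _ _ (b', !s, 1) (b, s, 1)).ng (by simp)) : T.Si _ _ _ (b', !s, -1) (b, s, -1)).mo (by omega))]
  h3 s p q b b1 b2 t a1 a2 a3 a4 a5 a6 a7 a8 H H1 H2 := by
    refine n (cyc rk ha hw h3 (ι := Fin 3) ![2, 0, 1] 2 (by decide) ![b, b1, q] ![p, t, b2] ![-1, 1, -1] ![s, s, !s] p q [0, 1, 2]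
      a1 a2 (by omega) ?_ (by simp [Fin.forall_fin_succ]; omega) (by decide)
      (by cases s <;> simp [pt] <;> omega) (by simp [Fin.forall_fin_succ]; omega) ⟨2, by simp; omega⟩)
    simp only [Fin.forall_fin_succ]
    exact ⟨(((H.ng (by simp)) : T.Si _ _ _ (p, s, -1) (q, !s, -1)).mo (by omega)),
      (((((H2.rv (by simp)) : T.Si _ _ _ (t, s, -1) (b, s, 1)).ng (by simp)) : T.Si _ _ _ (t, s, 1) (b, s, -1)).mo (by omega)),
      (((H1.rv (by simp)) : T.Si _ _ _ (b2, !s, -1) (b1, s, 1)).mo (by omega)), by simp⟩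

theorem ok_ext {G : Geo (A × Bool)} {S' : Finset ℤ} {r : ℕ} {x : ℤ} (h : G.S ⊆ S') (k : 0 ≤ x ∧ x ≤ G.n ∧ ∀ y ∈ S', x + r < y ∨ y + r < x) :
    G.ok r x := ⟨k.1, k.2.1, fun y hy => k.2.2 y (h hy)⟩

def ext (T : Txt A) (α ω : ℤ) : Txt A :=
  have h : T.S ⊆ insert α (insert ω T.S) := fun _ h => by simp [h]
  { T with
    S := insert α (insert ω T.S)
    h0 := h T.h0
    hn := h T.hn
    inv := fun s x a b c => T.inv s x a b fun m => c (h m)
    par := fun s x a b c d => T.par s x a b (fun m => c (h m)) fun m => d (h m)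
    r1 := fun x a b c => T.r1 x a b fun m => c (h m)
    b1 := fun x k => T.b1 x (ok_ext h k)
    nc := fun x y k k' => T.nc x y (ok_ext h k) (ok_ext h k')
    cl := fun x c k => T.cl x c (ok_ext h k) }

theorem seg_ext (o : ℤ) : ∀ k x, (T.ext α ω).seg o x k = T.seg o x k
  | 0, _ => rfl
  | k + 1, x => by rw [seg, seg, seg_ext o k]; rfl

theorem pump [Fintype Q] (δ : Q → A × Bool → Q) (N e : ℕ) : ∃ K : ℕ, ∀ (T : Txt A) (a : ℤ), T.S.card ≤ N → 0 ≤ a → a + K < T.n →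
    ∃ (ρ : ℕ) (α ω : ℤ), a ≤ α ∧ ω ≤ a + K ∧ T.Pump δ ρ e α ω := by
  refine ⟨(fun ρ => nb (N + 2) ((Geo.up (N + 2))^[4] (ρ + Fintype.card (Set Q × Set Q))))^[2 * Fintype.card Q + 1] 0,
    fun T a hN h0 hn => ?_⟩
  obtain ⟨ρ, α, ω, a1, a2, a3, rk⟩ := window (T := T) (δ := δ) _ _ a (Nat.lt_add_left _ (Nat.lt_succ_self _))
  refine ⟨ρ, α, ω, a1, a2, ?_⟩
  have rk' : (T.ext α ω).RK δ ρ α ω := by simpa only [RK, Im, seg_ext] using rk
  have h : T.S ⊆ (T.ext α ω).S := fun _ h => by simp [ext, h]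
  obtain ⟨u, u1, u2, u3, u4, x, p, u5, u6⟩ : (T.ext α ω).Pump δ ρ e α ω := by_contra fun n =>
    Geo.geo (np rk' (by simp [ext]) (by simp [ext]) (lt_of_le_of_lt a2 hn) n) (N := N + 2)
      ((Finset.card_insert_le _ _).trans (by have := Finset.card_insert_le ω T.S; omega)) (by omega) (a2.trans hn.le) a3
  refine ⟨u, fun x n => ok_ext h (u1 x n), fun x k => ?_, u3, by simpa only [Im, seg_ext] using u4, x, p, ok_ext h u5, u6⟩
  by_cases c : u x = []
  · rw [c, ori_nil]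
    by_contra n
    have := u2 _ ((u1 _ n).mono ρ.zero_le)
    change u (T.P true (T.P true x)) = _ at this
    rw [(k.inv true).1, c] at this
    unfold ori at this
    split_ifs at this
    exacts [n this.symm, n (by simpa [invRev] using this)]
  · exact u2 x ((u1 x c).mono ρ.zero_le)

end Txt

end Pool.Agent.H.MP_874169_lc
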