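import Pool.Agent.H.MP_874169_lc.D

set_option autoImplicit false

namespace Pool.Agent.H.MP_874169_lc

open Function FreeGroup Finset

def Mt (h : ℤ → ℤ) (x y : ℤ) : Prop := x < y ∧ h x = h y ∧ ∀ z, x < z → z < y → h x < h z
def Qt (h : ℤ → ℤ) (n x y : ℤ) : Prop := 0 < x ∧ y < n ∧ Mt h x y ∧ h (x - 1) < h x ∧ h (y + 1) < h y

theorem Mt.u1 {h : ℤ → ℤ} {x y y' : ℤ} (a : Mt h x y) (b : Mt h x y') : y = y' := by
  by_contra n
  rcases lt_or_gt_of_ne n with c | c
  · have := b.2.2 y a.1 c; have := a.2.1; omega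
  · have := a.2.2 y' b.1 c; have := b.2.1; omega

theorem Mt.u2 {h : ℤ → ℤ} {x x' y : ℤ} (a : Mt h x y) (b : Mt h x' y) : x = x' := by
  by_contra n
  have := a.2.1
  have := b.2.1
  rcases lt_or_gt_of_ne n with c | c
  · have := a.2.2 x' c b.1; omega
  · have := b.2.2 x c a.1; omega

open Classical in
theorem path {n : ℤ} {h : ℤ → ℤ} (st : ∀ x, 0 ≤ x → x < n → h x = h (x + 1) + 1 ∨ h (x + 1) = h x + 1) (h0 : ∀ x, 0 ≤ h x) (h1 : h 0 = 0)
    (h2 : h n = 0) (B : Finset ℤ) (b0 : 0 ∈ B) (bn : n ∈ B) (pk : ∀ x, 0 < x → x < n → h (x - 1) < h x → h (x + 1) < h x → x ∈ B) :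
    (B ∪ (Icc 0 n).filter fun x => ¬ ∃ y, Qt h n x y ∨ Qt h n y x).card ≤ 4 * B.card := by
  have st' : ∀ x, 0 < x → x ≤ n → h (x - 1) = h x + 1 ∨ h x = h (x - 1) + 1 := fun x a b => by simpa using st (x - 1) (by omega) (by omega)
  let Val := (Ioo 0 n).filter fun x => h x < h (x - 1) ∧ h x < h (x + 1)
  let U := (Ioo 0 n).filter fun x => ∃ y ∈ Val, Mt h x y
  let D := (Ioo 0 n).filter fun x => ∃ y ∈ Val, Mt h y x
  have c1 : Val.card ≤ B.card := by
    refine card_le_card_of_forall_subsingleton (fun v z => v < z ∧ ∀ w, v ≤ w → w < z → h w < h (w + 1)) (fun v hv => ?_)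
      fun z _ v hv v' hv' => ?_
    · obtain ⟨hv, a, b⟩ := mem_filter.1 hv
      have hv := mem_Ioo.1 hv
      obtain ⟨z, ⟨z1, z2, z3⟩, hz⟩ := Int.exists_least_of_bdd (P := fun z => v < z ∧ z ≤ n ∧ (z = n ∨ h (z + 1) < h z))
        ⟨v, fun _ h => h.1.le⟩ ⟨n, hv.2, le_rfl, .inl rfl⟩
      have e : ∀ w, v ≤ w → w < z → h w < h (w + 1) := fun w a c => by
        rcases a.lt_or_eq with a | rfl
        · by_contra d
          have := st w (by omega) (by omega)
          have := hz w ⟨a, by omega, .inr (by omega)⟩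
          omega
        · exact b
      refine ⟨z, ?_, z1, e⟩
      rcases z2.lt_or_eq with z2 | rfl
      · exact pk z (by omega) z2 (by simpa using e (z - 1) (by omega) (by omega)) (by omega)
      · exact bn
    · by_contra c
      have a := (mem_filter.1 hv.1).2.1
      have a' := (mem_filter.1 hv'.1).2.1
      have := hv.2.1
      have := hv'.2.1
      rcases lt_or_gt_of_ne c with c | c
      · have := hv.2.2 (v' - 1) (by omega) (by omega); simp at this; omega
      · have := hv'.2.2 (v - 1) (by omega) (by omega); simp at this; omega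
  have c2 : U.card ≤ Val.card := card_le_card_of_forall_subsingleton (Mt h) (fun x hx => (mem_filter.1 hx).2)
    fun _ _ _ a _ b => a.2.u2 b.2
  have c3 : D.card ≤ Val.card := card_le_card_of_forall_subsingleton (fun x y => Mt h y x) (fun x hx => (mem_filter.1 hx).2)
    fun _ _ _ a _ b => a.2.u1 b.2
  refine (card_le_card (t := B ∪ Val ∪ U ∪ D) fun x hx => ?_).trans
    ((card_union_le _ _).trans ((add_le_add_left ((card_union_le _ _).trans (add_le_add_left (card_union_le _ _) _)) _).trans (by omega)))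
  simp only [mem_union]
  by_cases xb : x ∈ B
  · simp [xb]
  obtain ⟨hx, nq⟩ := mem_filter.1 ((mem_union.1 hx).resolve_left xb)
  have hx := mem_Icc.1 hx
  have x0 : 0 < x := hx.1.lt_of_ne fun e => xb (e ▸ b0)
  have xn : x < n := hx.2.lt_of_ne fun e => xb (e ▸ bn)
  have xi := mem_Ioo.2 ⟨x0, xn⟩
  have := h0 (x - 1)
  have := h0 (x + 1)
  rcases st x hx.1 xn with a | a <;> rcases st' x x0 hx.2 with b | b
  · obtain ⟨y, ⟨y1, y2, y3⟩, hy⟩ := Int.exists_greatest_of_bdd (P := fun y => y < x ∧ 0 ≤ y ∧ h y ≤ h x) ⟨x, fun _ h => h.1.le⟩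
      ⟨0, x0, le_rfl, by omega⟩
    have e : ∀ z, y < z → z < x → h x < h z := fun z c d => by
      by_contra k
      have := hy z ⟨d, by omega, by omega⟩
      omega
    have e2 : y + 1 < x := lt_of_le_of_ne (by omega) fun k => by rw [← k] at b y3; simp at b; omega
    have := e _ (by omega) e2
    have := st y y2 (by omega)
    have m : Mt h y x := ⟨y1, by omega, fun z c d => by have := e z c d; omega⟩
    have y0 : 0 < y := y2.lt_of_ne fun k => by subst k; omega
    have := st' y y0 (by omega)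
    refine .inr (mem_filter.2 ⟨xi, y, mem_filter.2 ⟨mem_Ioo.2 ⟨y0, by omega⟩, ?_, by omega⟩, m⟩)
    by_contra k
    exact nq ⟨y, .inr ⟨y0, xn, m, by omega, by omega⟩⟩
  · exact (xb (pk x x0 xn (by omega) (by omega))).elim
  · exact .inl (.inl (.inr (mem_filter.2 ⟨xi, by omega, by omega⟩)))
  · obtain ⟨y, ⟨y1, y2, y3⟩, hy⟩ := Int.exists_least_of_bdd (P := fun y => x < y ∧ y ≤ n ∧ h y ≤ h x) ⟨x, fun _ h => h.1.le⟩
      ⟨n, xn, le_rfl, by omega⟩
    have e : ∀ z, x < z → z < y → h x < h z := fun z c d => by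
      by_contra k
      have := hy z ⟨c, by omega, by omega⟩
      omega
    have e2 : x < y - 1 := lt_of_le_of_ne (by omega) fun k => by rw [show y = x + 1 by omega] at y3; omega
    have := e _ e2 (by omega)
    have := st' y (by omega) y2
    have m : Mt h x y := ⟨y1, by omega, e⟩
    have yn : y < n := y2.lt_of_ne fun k => by subst k; omega
    have := st y (by omega) yn
    refine .inl (.inr (mem_filter.2 ⟨xi, y, mem_filter.2 ⟨mem_Ioo.2 ⟨by omega, yn⟩, by omega, ?_⟩, m⟩))
    by_contra k
    exact nq ⟨y, .inl ⟨x0, yn, m, by omega, by omega⟩⟩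

variable {A : Type}

def tl (W : List (A × Bool)) (d : A × Bool) (x : ℤ) : A × Bool := W.getD x.toNat d
def ga (W : List (A × Bool)) (x : ℤ) : FreeGroup A := FreeGroup.mk (W.drop x.toNat)

theorem drop_tl (W : List (A × Bool)) (d : A × Bool) {x : ℤ} (a : 0 ≤ x) (b : x < W.length) :
    W.drop x.toNat = tl W d x :: W.drop (x + 1).toNat := by
  rw [List.drop_eq_getElem_cons (by omega), tl, List.getD_eq_getElem _ _ (by omega), show (x + 1).toNat = x.toNat + 1 by omega]

theorem iv_iv (a : A × Bool) : iv (iv a) = a := by simp [iv]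

theorem bottom (W : List (A × Bool)) (d : A × Bool) (hW : FreeGroup.mk W = 1) (B : Finset ℤ) (b0 : 0 ∈ B) (bn : (W.length : ℤ) ∈ B)
    (hB : ∀ x : ℤ, 0 < x → x < W.length → x ∉ B → tl W d x ≠ iv (tl W d (x - 1))) : ∃ (P : ℤ → ℤ) (S : Finset ℤ), S.card ≤ 4 * B.card ∧ B ⊆ S ∧
    ∀ x : ℤ, 0 ≤ x → x ≤ W.length → x ∉ S → (P (P x) = x ∧ P x ≠ x ∧ 0 ≤ P x ∧ P x ≤ W.length ∧ tl W d x = iv (tl W d (P x - 1)) ∧
      iv (tl W d (x - 1)) = tl W d (P x)) ∧ ga W (P x) = ga W x ∧ (∀ c : ℤ, 0 ≤ c → c ≤ x → ga W c = 1 → c ≤ P x) ∧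
      (∀ y : ℤ, 0 ≤ y → y ≤ W.length → y ∉ S → x < y → y < P x → x < P y ∧ P y < P x) ∧
      (x + 1 ≤ W.length → x + 1 ∉ S → P (x + 1) = P x + -1) := by
  classical
  let R : ℤ → List (A × Bool) := fun x => (ga W x).toWord
  let h : ℤ → ℤ := fun x => (R x).length
  have s1 : ∀ x : ℤ, 0 ≤ x → x < W.length → R x = tl W d x :: R (x + 1) ∨ R (x + 1) = iv (tl W d x) :: R x := fun x a b => by
    simp only [R, ga, toWord_mk]
    rw [drop_tl W d a b, reduce.cons]
    rcases reduce (W.drop (x + 1).toNat) with _ | ⟨c, l⟩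
    · simp
    · dsimp only
      split_ifs with e
      · exact .inr (by simp [iv, e.1, e.2])
      · exact .inl rfl
  have dn : ∀ x : ℤ, 0 ≤ x → x < W.length → h (x + 1) < h x → R x = tl W d x :: R (x + 1) := fun x a b c =>
    (s1 x a b).resolve_right fun e => by simp only [h, e, List.length_cons] at c; omega
  have up : ∀ x : ℤ, 0 ≤ x → x < W.length → h x < h (x + 1) → R (x + 1) = iv (tl W d x) :: R x := fun x a b c =>
    (s1 x a b).resolve_left fun e => by simp only [h, e, List.length_cons] at c; omega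
  have st : ∀ x : ℤ, 0 ≤ x → x < W.length → h x = h (x + 1) + 1 ∨ h (x + 1) = h x + 1 := fun x a b => by
    rcases s1 x a b with e | e <;> simp [h, e]
  have sf : ∀ x y : ℤ, 0 ≤ x → x ≤ y → y ≤ W.length → (∀ z, x ≤ z → z ≤ y → h y ≤ h z) → h x = h y → R x = R y := fun x y a b c e e' => by
    have : ∀ k : ℕ, x ≤ y - k → R y <:+ R (y - k) := fun k => by
      induction k with
      | zero => simp
      | succ k ih =>
        intro f
        have ih := ih (by omega)
        rw [show y - k = y - (k + 1 : ℕ) + 1 by omega] at ih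
        rcases s1 (y - (k + 1 : ℕ)) (by omega) (by omega) with g | g
        · exact g ▸ ih.trans (List.suffix_cons _ _)
        · rw [g, List.suffix_cons_iff] at ih
          refine ih.resolve_left fun i => ?_
          have := e _ f (by omega)
          simp only [h, i, List.length_cons] at this
          omega
    have := this (y - x).toNat (by omega)
    rw [show y - (y - x).toNat = x by omega] at this
    exact (this.eq_of_length (by simp only [h] at e'; omega)).symm
  have q1 : ∀ {x y}, Qt h W.length x y → h x < h (x + 1) ∧ h y < h (y - 1) ∧ x + 1 < y := fun {x y} ⟨a, b, ⟨c, e, f⟩, _⟩ => by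
    have : x + 1 ≠ y := fun k => by have := st x a.le (by omega); rw [k] at this; omega
    have := f (y - 1) (by omega) (by omega)
    exact ⟨f _ (by omega) (by omega), by omega, by omega⟩
  have q2 : ∀ {x y}, Qt h W.length x y → R x = R y ∧ tl W d x = iv (tl W d (y - 1)) ∧ iv (tl W d (x - 1)) = tl W d y := fun {x y} k => by
    obtain ⟨k1, k2, k3⟩ := q1 k
    obtain ⟨a, b, ⟨c, e, f⟩, g, i⟩ := k
    have r1 : R x = R y := sf x y a.le c.le b.le (fun z u v => by
      rcases u.lt_or_eq with u | rfl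
      · rcases v.lt_or_eq with v | rfl
        · have := f z u v; omega
        · rfl
      · omega) e
    have := st x a.le (by omega)
    have := st (y - 1) (by omega) (by omega)
    rw [sub_add_cancel] at this
    have r2 : R (x + 1) = R (y - 1) := sf _ _ (by omega) (by omega) (by omega) (fun z u v => by have := f z (by omega) (by omega); omega)
      (by omega)
    have u1 := up (x - 1) (by omega) (by omega) (by rwa [sub_add_cancel])
    have u2 := dn (y - 1) (by omega) (by omega) (by rwa [sub_add_cancel])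
    rw [sub_add_cancel] at u1
    rw [up x a.le (by omega) k1, u2] at r2
    refine ⟨r1, by rw [← (List.cons.inj r2).1, iv_iv], ?_⟩
    rw [u1, dn y (by omega) b i] at r1
    exact (List.cons.inj r1).1
  have uq : ∀ {x y z}, Qt h W.length x y ∨ Qt h W.length y x → Qt h W.length x z ∨ Qt h W.length z x → y = z := by
    rintro x y z (a | a) (b | b)
    · exact a.2.2.1.u1 b.2.2.1
    · have := q1 a; have := b.2.2.2.2; omega
    · have := q1 b; have := a.2.2.2.2; omega
    · exact a.2.2.1.u2 b.2.2.1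
  let P : ℤ → ℤ := fun x => if e : ∃ y, Qt h W.length x y ∨ Qt h W.length y x then e.choose else x
  have hP : ∀ {x y}, Qt h W.length x y ∨ Qt h W.length y x → P x = y := fun {x y} k => by
    have e : ∃ y, Qt h W.length x y ∨ Qt h W.length y x := ⟨y, k⟩
    exact (dif_pos e).trans (uq e.choose_spec k)
  refine ⟨P, _, path st (fun _ => Nat.cast_nonneg _) (by simp only [h, R, ga, Int.toNat_zero, List.drop_zero, hW]; rfl) (by simp [h, R, ga]) B b0 bn fun x a b c e => ?_,
    subset_union_left, fun x a b c => ?_⟩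
  · by_contra k
    have u1 := up (x - 1) (by omega) (by omega) (by rwa [sub_add_cancel])
    rw [sub_add_cancel, dn x a.le b e] at u1
    exact hB x a b k (List.cons.inj u1).1
  have ex : ∀ x : ℤ, 0 ≤ x → x ≤ W.length → x ∉ (B ∪ (Icc (0 : ℤ) W.length).filter fun x => ¬ ∃ y, Qt h W.length x y ∨ Qt h W.length y x) →
      Qt h W.length x (P x) ∨ Qt h W.length (P x) x := fun x a b c => by
    obtain ⟨y, k⟩ : ∃ y, Qt h W.length x y ∨ Qt h W.length y x :=
      by_contra fun k => c (mem_union_right _ (mem_filter.2 ⟨mem_Icc.2 ⟨a, b⟩, k⟩))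
    rwa [hP k]
  have k := ex x a b c
  refine ⟨⟨hP k.symm, ?_⟩, ?_, fun c c0 cx g => ?_, fun y y0 yn ys xy yp => ?_, fun d e => ?_⟩
  · rcases k with k | k <;> have := q1 k <;> have := k.1 <;> have := k.2.1
    · exact ⟨by omega, by omega, by omega, (q2 k).2⟩
    · exact ⟨by omega, by omega, by omega, (q2 k).2.2.symm, (q2 k).2.1.symm⟩
  · exact toWord_injective (k.elim (fun k => (q2 k).1.symm) fun k => (q2 k).1)
  · have : h c = 0 := by simp [h, R, g]
    by_contra n
    rcases k with k | ⟨k1, k2, ⟨k3, k4, k5⟩, k6, k7⟩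
    · have := k.2.2.1.1; omega
    · have : 0 ≤ h (P x - 1) := Nat.cast_nonneg _
      rcases cx.lt_or_eq with cx | rfl
      · have := k5 c (by omega) cx; omega
      · omega
  · obtain ⟨k1, k2, ⟨k3, k4, k5⟩, -⟩ := k.resolve_right fun k => by have := k.2.2.1.1; omega
    have := k5 y xy yp
    rcases ex y y0 yn ys with ⟨-, -, ⟨j3, j4, j5⟩, -⟩ | ⟨-, -, ⟨j3, j4, j5⟩, -⟩
    · refine ⟨by omega, by_contra fun n => ?_⟩
      rcases (not_lt.1 n).lt_or_eq with n | n
      · have := j5 _ yp n; omega
      · rw [← n] at j4; omega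
    · refine ⟨by_contra fun n => ?_, by omega⟩
      rcases (not_lt.1 n).lt_or_eq with n | n
      · have := j5 _ n xy; omega
      · rw [n] at j4; omega
  · rcases k with k | k <;> rcases ex (x + 1) (by omega) d e with j | j
    · obtain ⟨j1, j2, ⟨j3, j4, j5⟩, j6, j7⟩ := j
      have := st _ (by omega) j2
      have := st x a (by omega)
      rw [add_sub_cancel_right] at j6
      have := k.2.2.1.u1 (y' := P (x + 1) + 1) ⟨by omega, by omega, fun z u v => by
        rcases (show z = x + 1 ∨ z = P (x + 1) ∨ x + 1 < z ∧ z < P (x + 1) by omega) with rfl | rfl | w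
        exacts [by omega, by omega, by have := j5 z w.1 w.2; omega]⟩
      omega
    · have := q1 k; have := q1 j; simp only [add_sub_cancel_right] at this; omega
    · have := k.2.2.2.2; have := j.2.2.2.1; simp only [add_sub_cancel_right] at this; omega
    · obtain ⟨j1, j2, ⟨j3, j4, j5⟩, j6, j7⟩ := k
      have := st (P x - 1) (by omega) (by omega)
      have := st x a (by omega)
      rw [sub_add_cancel] at *
      have := j.2.2.1.u2 (x' := P x - 1) ⟨by omega, by omega, fun z u v => by
        rcases (show z = P x ∨ z = x ∨ P x < z ∧ z < x by omega) with rfl | rfl | w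
        exacts [by omega, by omega, by have := j5 z w.1 w.2; omega]⟩
      omega

end Pool.Agent.H.MP_874169_lc
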