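import Pool.Agent.H.MP_874169_lc.E

set_option autoImplicit false

namespace Pool.Agent.H.MP_874169_lc

open Function FreeGroup

variable {A Q : Type} {δ : Q → A × Bool → Q}

namespace Txt

variable (T : Txt A) (u : ℤ → List (A × Bool))

def nw (o : ℤ) : ℤ → ℕ → List (A × Bool)
  | _, 0 => []
  | x, k + 1 => ori o (u x) ++ T.lt x o :: nw o (x + o) k

variable {T u}

theorem seg_eq {o : ℤ} (d : A × Bool) : ∀ (l : List (A × Bool)) (x : ℤ), (∀ k : ℕ, k < l.length → T.lt (x + o * k) o = l.getD k d) →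
    T.seg o x l.length = l
  | [], _, _ => rfl
  | a :: l, x, h => by
    rw [List.length_cons, seg, seg_eq d l]
    · simpa using h 0 (by simp)
    · intro k hk
      have := h (k + 1) (by simpa using hk)
      rwa [show x + o * ((k + 1 : ℕ) : ℤ) = x + o + o * k by push_cast; ring] at this

theorem nw_congr {o o' : ℤ} : ∀ (k : ℕ) (x y : ℤ), (∀ i : ℕ, i < k → T.lt (x + o * i) o = T.lt (y + o' * i) o' ∧
    ori o (u (x + o * i)) = ori o' (u (y + o' * i))) → T.nw u o x k = T.nw u o' y k
  | 0, _, _, _ => rfl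
  | k + 1, x, y, h => by
    have := h 0 (by omega)
    simp only [Nat.cast_zero, mul_zero, add_zero] at this
    rw [nw, nw, nw_congr (o' := o') k (x + o) (y + o'), this.1, this.2]
    intro i hi
    have := h (i + 1) (by omega)
    rwa [show x + o * ((i + 1 : ℕ) : ℤ) = x + o + o * i by push_cast; ring,
      show y + o' * ((i + 1 : ℕ) : ℤ) = y + o' + o' * i by push_cast; ring] at this

theorem nw_act {ρ : ℕ} {o x : ℤ} (ho : o = 1 ∨ o = -1) (hx : x ∈ T.S) (u1 : ∀ x, u x ≠ [] → T.ok ρ x)
    (u4 : ∀ x, ∀ q ∈ T.Im δ ρ x o, act δ (ori o (u x)) q = q) :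
    ∀ k j : ℕ, act δ (T.seg o x j ++ T.nw u o (x + o * j) k) = act δ (T.seg o x (j + k))
  | 0, j => by simp [nw]
  | k + 1, j => by
    have e : act δ (T.seg o x j ++ ori o (u (x + o * j))) = act δ (T.seg o x j) := by
      by_cases c : u (x + o * j) = []
      · simp [c, ori_nil]
      have := (u1 _ c).2.2 x hx
      obtain ⟨i, rfl⟩ : ∃ i, j = i + ρ := ⟨j - ρ, by rcases ho with rfl | rfl <;> omega⟩
      ext q
      rw [act_append]
      refine u4 _ _ ?_
      rw [seg_add, act_append, Im, show x + o * ((i + ρ : ℕ) : ℤ) - o * ρ = x + o * i by push_cast; ring]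
      exact ⟨_, rfl⟩
    rw [nw, ← List.append_assoc, act_append, e, ← act_append, show j + (k + 1) = j + 1 + k by omega, ← nw_act ho hx u1 u4 k (j + 1),
      seg_add o j 1, show x + o * ((j + 1 : ℕ) : ℤ) = x + o * j + o by push_cast; ring]
    simp [seg]

theorem nw_pos : ∀ (k : ℕ) (x : ℤ), Pr (fun x => FreeGroup.mk (u x) * FreeGroup.mk [T.lt x 1]) x k = FreeGroup.mk (T.nw u 1 x k)
  | 0, _ => rfl
  | k + 1, x => by rw [Pr, nw, nw_pos k]; simp [ori]

theorem nw_neg : ∀ (k : ℕ) (x : ℤ), Pr (fun x => FreeGroup.mk (u x) * FreeGroup.mk [T.lt x 1]) (x - k) k * FreeGroup.mk (u x) =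
    FreeGroup.mk (u (x - k)) * FreeGroup.mk (invRev (T.nw u (-1) x k))
  | 0, _ => by simp [Pr, nw, ← one_eq_mk]
  | k + 1, x => by
    have := nw_neg k (x + -1)
    have e := lt_inv (T := T) (.inr rfl) x
    rw [Pr_add, show x - ((k + 1 : ℕ) : ℤ) = x + -1 - k by push_cast; ring, sub_add_cancel, Pr, Pr, mul_one, ← mul_assoc, this, nw,
      neg_neg] at *
    simp [ori, invRev, e, iv, Function.comp_def]

theorem nw_inf (o : ℤ) : ∀ (l k : ℕ) (x : ℤ), k < l → ori o (u (x + o * k)) <:+: T.nw u o x l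
  | l + 1, 0, x, _ => by simpa [nw] using (List.prefix_append _ _).isInfix
  | l + 1, k + 1, x, h => by
    rw [show x + o * ((k + 1 : ℕ) : ℤ) = x + o + o * k by push_cast; ring, nw]
    exact (nw_inf o l k _ (by omega)).trans ((List.suffix_cons _ _).trans (List.suffix_append _ _)).isInfix

end Txt

def SP (sg : ℕ → ℤ) (Y : ℕ → List (A × Bool)) (c k : ℕ) : List (A × Bool) := (List.range' c k).flatMap fun i => ori (sg i) (Y i)

theorem SP_add (sg : ℕ → ℤ) (Y : ℕ → List (A × Bool)) (a c k : ℕ) : SP sg Y a (c + k) = SP sg Y a c ++ SP sg Y (a + c) k := by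
  rw [SP, ← List.range'_append_1, List.flatMap_append]; rfl

theorem SP_succ (sg : ℕ → ℤ) (Y : ℕ → List (A × Bool)) (c k : ℕ) : SP sg Y c (k + 1) = ori (sg c) (Y c) ++ SP sg Y (c + 1) k := by
  simp [SP, List.range'_succ]

theorem ori_len (o : ℤ) (w : List (A × Bool)) : (ori o w).length = w.length := by unfold ori; split_ifs <;> simp

theorem core [Fintype Q] (δ : Q → A × Bool → Q) (m e : ℕ) : ∃ K : ℕ, ∀ (sg : ℕ → ℤ) (Y : ℕ → List (A × Bool)) (π : ℕ → ℕ),
    (∀ i < m, IsReduced (Y i) ∧ (sg i = 1 ∨ sg i = -1) ∧ (1 < (Y i).length → π i < m ∧ π i ≠ i ∧ π (π i) = i ∧ Y (π i) = Y i)) →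
    FreeGroup.mk (SP sg Y 0 m) = 1 → (∃ i < m, K ≤ (Y i).length) → ∃ Y' : ℕ → List (A × Bool),
    (∀ i < m, act δ (Y' i) = act δ (Y i) ∧ ((Y i).length ≤ 1 → Y' i = Y i) ∧ (1 < (Y i).length → Y' (π i) = Y' i)) ∧
    (∀ k c, c + k = m → FreeGroup.mk (SP sg Y c k) = 1 → FreeGroup.mk (SP sg Y' c k) = 1) ∧
    ∃ i < m, ∃ p, p ≠ [] ∧ 1 < (Y i).length ∧ pw e p <:+: Y' i := by
  classical
  obtain ⟨K, hK⟩ := Txt.pump δ (4 * (m + 1)) e
  refine ⟨K + 2, fun sg Y π H hW ⟨i0, i0m, hi0⟩ => ?_⟩
  obtain ⟨d, -⟩ := List.exists_mem_of_length_pos (l := Y i0) (by omega)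
  set W := SP sg Y 0 m with hWd
  obtain ⟨pos, hpos⟩ : ∃ pos : ℕ → ℤ, ∀ c, pos c = (SP sg Y 0 c).length := ⟨_, fun _ => rfl⟩
  have p0 : pos 0 = 0 := by simp [hpos, SP]
  have pm : pos m = W.length := hpos m
  have ps : ∀ c, pos (c + 1) = pos c + (Y c).length := fun c => by
    rw [hpos, hpos, SP_add, SP_succ]; simp [ori_len, SP]
  have pl : ∀ {i j}, i ≤ j → pos i ≤ pos j := fun {i j} h => monotone_nat_of_le_succ (fun c => by rw [ps]; omega) h
  have dr : ∀ c k, c + k = m → W.drop (pos c).toNat = SP sg Y c k := fun c k h => by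
    rw [hWd, ← h, SP_add, hpos, Int.toNat_natCast, List.drop_left, zero_add]
  let lt : ℤ → ℤ → A × Bool := fun x o => if o = 1 then tl W d x else iv (tl W d (x - 1))
  have li : ∀ {o}, o = 1 ∨ o = -1 → ∀ x, lt (x + o) (-o) = iv (lt x o) := by
    rintro o (rfl | rfl) x <;> simp [lt, iv_iv, sub_eq_add_neg]
  obtain ⟨st, hst⟩ : ∃ st : ℕ → ℤ, ∀ i, st i = if sg i = 1 then pos i else pos (i + 1) := ⟨_, fun _ => rfl⟩
  have s1 : ∀ i < m, sg i = 1 ∧ st i = pos i ∨ sg i = -1 ∧ st i = pos (i + 1) := fun i hi => by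
    rcases (H i hi).2.1 with e | e <;> simp [hst, e]
  have bl : ∀ i < m, ∀ k : ℕ, k < (Y i).length → tl W d (pos i + k) = (ori (sg i) (Y i)).getD k d := fun i hi k hk => by
    have := pl i.zero_le
    have e := congrArg (·.getD k d) (dr i (m - i - 1 + 1) (by omega))
    simp only [SP_succ, List.getD_eq_getElem?_getD, List.getElem?_drop] at e
    rw [List.getElem?_append_left (by rwa [ori_len])] at e
    rw [tl, show (pos i + k).toNat = (pos i).toNat + k by omega]
    simpa using e
  have LL : ∀ i < m, ∀ k : ℕ, k < (Y i).length → lt (st i + sg i * k) (sg i) = (Y i).getD k d := fun i hi k hk => by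
    rcases s1 i hi with ⟨e, f⟩ | ⟨e, f⟩
    · simpa [lt, e, f, ori] using bl i hi k hk
    · have := bl i hi ((Y i).length - 1 - k) (by omega)
      simp only [lt, e, f, ps, ori, show ¬ (-1 : ℤ) = 1 by omega, if_false] at this ⊢
      rw [show pos i + (Y i).length + -1 * k - 1 = pos i + ((Y i).length - 1 - k : ℕ) by omega, this,
        List.getD_eq_getElem _ _ (by simp; omega), List.getD_eq_getElem _ _ hk]
      simp [invRev, iv, show (Y i).length - 1 - ((Y i).length - 1 - k) = k by omega]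
  let B := (Finset.range (m + 1)).image pos
  have pB : ∀ i ≤ m, pos i ∈ B := fun i hi => Finset.mem_image_of_mem _ (by simpa using hi)
  let In : ℤ → ℕ → ℕ → Prop := fun x i k => i < m ∧ 0 < k ∧ k < (Y i).length ∧ x = st i + sg i * k
  have i1 : ∀ {x i k}, In x i k → pos i < x ∧ x < pos (i + 1) := by
    rintro x i k ⟨a, b, c, rfl⟩
    have := ps i
    rcases s1 i a with ⟨e, f⟩ | ⟨e, f⟩ <;> rw [e, f] <;> omega
  have i2 : ∀ {x y i j k l}, In x i k → In y j l → x ≤ y + 1 → y ≤ x + 1 → i = j := fun {x y i j k l} a b c e => by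
    have := i1 a
    have := i1 b
    by_contra n
    rcases lt_or_gt_of_ne n with n | n <;> have := pl (Nat.succ_le_of_lt n) <;> simp only [Nat.succ_eq_add_one] at this <;> omega
  have i3 : ∀ x : ℤ, 0 ≤ x → x ≤ W.length → x ∉ B → ∃ i k, In x i k := fun x a b c => by
    have ex : ∃ i, x < pos (i + 1) := ⟨m - 1, by
      rw [show m - 1 + 1 = m by omega]
      exact lt_of_le_of_ne (pm ▸ b) fun e => c (e ▸ pB m le_rfl)⟩
    have f1 := Nat.find_spec ex
    have f2 : Nat.find ex < m := by
      have := Nat.find_min' ex (m := m - 1) (by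
        rw [show m - 1 + 1 = m by omega]
        exact lt_of_le_of_ne (pm ▸ b) fun e => c (e ▸ pB m le_rfl))
      omega
    have f3 : pos (Nat.find ex) < x := by
      refine lt_of_le_of_ne ?_ fun e => c (e ▸ pB _ f2.le)
      rcases e : Nat.find ex with _ | j
      · omega
      · exact not_lt.1 (Nat.find_min ex (by omega))
    generalize Nat.find ex = i at *
    have := ps i
    rcases s1 i f2 with ⟨e, f⟩ | ⟨e, f⟩
    · exact ⟨i, (x - pos i).toNat, f2, by omega, by omega, by rw [e, f]; omega⟩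
    · exact ⟨i, (pos (i + 1) - x).toNat, f2, by omega, by omega, by rw [e, f]; omega⟩
  have i4 : ∀ {x i k}, In x i k → lt x (sg i) = (Y i).getD k d ∧ lt x (-sg i) = iv ((Y i).getD (k - 1) d) := by
    rintro x i k ⟨a, b, c, rfl⟩
    refine ⟨LL i a k c, ?_⟩
    rw [← LL i a (k - 1) (by omega), ← li (H i a).2.1, Nat.cast_pred b]
    congr 1
    ring
  have rd : ∀ x : ℤ, 0 ≤ x → x ≤ W.length → x ∉ B → lt x 1 ≠ lt x (-1) := fun x a b c => by
    obtain ⟨i, k, h⟩ := i3 x a b c
    have h4 := i4 h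
    have : lt x (sg i) ≠ lt x (-sg i) := by
      obtain ⟨h1, h2, h3, -⟩ := h
      obtain ⟨k, rfl⟩ := Nat.exists_eq_succ_of_ne_zero h2.ne'
      have := List.isChain_iff_getElem.1 (H i h1).1 k h3
      rw [h4.1, h4.2, List.getD_eq_getElem _ _ h3, List.getD_eq_getElem _ _ (by omega)]
      intro e
      simp only [Nat.succ_eq_add_one, Nat.add_sub_cancel] at e
      simp [e, iv] at this
    rcases (H i h.1).2.1 with e | e <;> rw [e] at this
    exacts [this, this.symm]
  obtain ⟨P, S, cS, BS, hb⟩ := bottom W d hW B (p0 ▸ pB 0 m.zero_le) (pm ▸ pB m le_rfl) fun x a b c => rd x a.le b.le c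
  let PE : ℤ → ℤ × ℤ := fun x => if h : ∃ p : ℕ × ℕ, In x p.1 p.2 then
    (st (π h.choose.1) + sg (π h.choose.1) * h.choose.2, sg h.choose.1 * sg (π h.choose.1)) else (0, 0)
  have pe : ∀ {x i k}, In x i k → PE x = (st (π i) + sg (π i) * k, sg i * sg (π i)) := fun {x i k} h => by
    have e : ∃ p : ℕ × ℕ, In x p.1 p.2 := ⟨(i, k), h⟩
    have e1 := i2 e.choose_spec h (by omega) (by omega)
    have e2 : e.choose.2 = k := by
      have f1 := e.choose_spec.2.2.2
      have f2 := h.2.2.2
      generalize e.choose = z at e1 f1 ⊢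
      rw [e1] at f1
      rcases (H i h.1).2.1 with t | t <;> rw [t] at f1 f2 <;> omega
    simp only [PE, dif_pos e, e1, e2]
  have pi : ∀ {x i k}, In x i k → In (st (π i) + sg (π i) * k) (π i) k ∧ π i ≠ i ∧ π (π i) = i ∧ Y (π i) = Y i := fun {x i k} h => by
    have := (H i h.1).2.2 (by have := h.2.1; have := h.2.2.1; omega)
    exact ⟨⟨this.1, h.2.1, this.2.2.2 ▸ h.2.2.1, rfl⟩, this.2⟩
  let T : Txt A :=
    { n := W.length, S := S, P := fun s x => if s then (PE x).1 else P x, E := fun s x => if s then (PE x).2 else -1, lt := lt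
      h0 := BS (p0 ▸ pB 0 m.zero_le), hn := BS (pm ▸ pB m le_rfl), γ := ga W
      inv := by
        rintro (_ | _) x a b c
        · simpa [lt] using (hb x a b c).1
        · obtain ⟨i, k, h⟩ := i3 x a b fun m => c (BS m)
          obtain ⟨h1, h2, h3, h4⟩ := pi h
          have l1 := i4 h
          have l2 := i4 h1
          have := i1 h1
          have := pl (π i).zero_le
          have := pl (Nat.succ_le_of_lt h1.1)
          simp only [if_true, pe h, pe h1, h3]
          refine ⟨h.2.2.2.symm, mul_comm .., ?_, fun e => h2 (i2 h1 h (by omega) (by omega)), by omega,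
            by simp only [Nat.succ_eq_add_one] at this; omega, ?_⟩
          · rcases (H i h.1).2.1 with t | t <;> rcases (H _ h1.1).2.1 with t' | t' <;> simp [t, t']
          · rw [h4] at l2
            rcases (H i h.1).2.1 with t | t <;> rw [t] at l1 ⊢
            · simp only [one_mul, l1, l2, and_self]
            · simp only [neg_mul, one_mul, neg_neg] at *
              simp only [l1, l2, and_self]
      par := by
        rintro (_ | _) x a b c c'
        · simpa using (hb x a (by omega) c).2.2.2.2 b c'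
        · obtain ⟨i, k, h⟩ := i3 x a (by omega) fun m => c (BS m)
          obtain ⟨j, l, h'⟩ := i3 (x + 1) (by omega) b fun m => c' (BS m)
          obtain rfl := i2 h h' (by omega) (by omega)
          simp only [if_true, pe h, pe h', and_true]
          have e1 := h.2.2.2
          have e2 := h'.2.2.2
          rcases (H i h.1).2.1 with t | t <;> rw [t] at e1 e2 ⊢
          · rw [show (l : ℤ) = k + 1 by omega]; ring
          · rw [show (l : ℤ) = k - 1 by omega]; ring
      r1 := fun x a b c => rd x a b fun m => c (BS m)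
      r2 := fun x _ _ => by simp [lt, iv, Prod.ext_iff]
      l2 := fun x => by simp [lt]
      g1 := fun x a b => by simp only [ga, lt, if_true, drop_tl W d a b]; rfl
      gn := by simp [ga, ← one_eq_mk]
      b1 := fun x k => ⟨rfl, (hb x k.1 k.2.1 k.nm).2.1⟩
      nc := fun x y k k' => (hb x k.1 k.2.1 k.nm).2.2.2.1 y k'.1 k'.2.1 k'.nm
      cl := fun x c k => (hb x k.1 k.2.1 k.nm).2.2.1 c }
  have := ps i0
  have := pl i0.zero_le
  have := pl (Nat.succ_le_of_lt i0m)
  simp only [Nat.succ_eq_add_one] at this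
  obtain ⟨ρ, α, ω, a1, a2, u, u1, u2, u3, u4, x, p, u5, u6, u7⟩ := hK T (pos i0 + 1)
    (cS.trans (Nat.mul_le_mul_left _ (Finset.card_image_le.trans (by simp)))) (by omega) (by change _ < (W.length : ℤ); omega)
  have u0 : ∀ i ≤ m, u (pos i) = [] := fun i hi => by_contra fun n => (u1 _ n).nm (BS (pB i hi))
  have sB : ∀ i < m, st i ∈ B := fun i hi => by rcases s1 i hi with ⟨-, f⟩ | ⟨-, f⟩ <;> rw [f] <;> exact pB _ (by omega)
  have u0' : ∀ i < m, u (st i) = [] := fun i hi => by_contra fun n => (u1 _ n).nm (BS (sB i hi))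
  have sY : ∀ i < m, T.seg (sg i) (st i) (Y i).length = Y i := fun i hi => Txt.seg_eq d _ _ (LL i hi)
  refine ⟨fun i => T.nw u (sg i) (st i) (Y i).length, fun i hi => ⟨?_, fun h => ?_, fun h => ?_⟩, fun k c h hc => ?_, ?_⟩
  · have := Txt.nw_act (H i hi).2.1 (BS (sB i hi)) u1 (fun x => u4 x _ (H i hi).2.1) (Y i).length 0
    simpa [Txt.seg, sY i hi] using this
  · refine Eq.trans ?_ (sY i hi)
    rcases (show (Y i).length = 0 ∨ (Y i).length = 0 + 1 by omega) with e | e <;> simp [e, Txt.nw, Txt.seg, u0' i hi, ori_nil]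
  · obtain ⟨h1, h2, h3, h4⟩ := (H i hi).2.2 h
    simp only [h4]
    refine Txt.nw_congr _ _ _ fun k hk => ⟨(LL _ h1 k (h4 ▸ hk)).trans (h4 ▸ (LL i hi k hk).symm), ?_⟩
    rcases k.eq_zero_or_pos with rfl | k0
    · simp [u0' i hi, u0' _ h1, ori_nil]
    have I1 : In (st i + sg i * k) i k := ⟨hi, k0, hk, rfl⟩
    have I2 := (pi I1).1
    have key : ∀ {x i k}, In x i k → u x ≠ [] → ori (sg (π i)) (u (st (π i) + sg (π i) * k)) = ori (sg i) (u x) := fun {x i k} I n => by
      have := u2 x ((u1 x n).mono ρ.zero_le)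
      simp only [T, if_true, pe I] at this
      rw [this]
      rcases (H i I.1).2.1 with t | t <;> rcases (H _ (pi I).1.1).2.1 with t' | t' <;> simp [t, t', ori]
    by_cases n : u (st i + sg i * k) = []
    · by_cases n' : u (st (π i) + sg (π i) * k) = []
      · rw [n, n', ori_nil, ori_nil]
      · have := key I2 n'
        rw [h3] at this
        exact this.symm
    · exact key I1 n
  · have G : ∀ k c, c + k = m → ∀ l : ℕ, pos c + l = W.length → Pr (fun x => FreeGroup.mk (u x) * FreeGroup.mk [T.lt x 1]) (pos c) l =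
        FreeGroup.mk (SP sg (fun i => T.nw u (sg i) (st i) (Y i).length) c k) := fun k => by
      induction k with
      | zero =>
        intro c h l hl
        obtain rfl : l = 0 := by rw [show c = m from h] at hl; omega
        rfl
      | succ k ih =>
        intro c h l hl
        have := pl (show c + 1 ≤ m by omega)
        have := ps c
        obtain ⟨l, rfl⟩ : ∃ j, l = (Y c).length + j := ⟨l - (Y c).length, by omega⟩
        rw [Pr_add, ← ps, ih (c + 1) (by omega) l (by omega), SP_succ, ← mul_mk]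
        congr 1
        rcases s1 c (by omega) with ⟨e, f⟩ | ⟨e, f⟩ <;> simp only [e, f]
        · exact Txt.nw_pos ..
        · have := Txt.nw_neg (T := T) (u := u) (Y c).length (pos (c + 1))
          rw [show pos (c + 1) - (Y c).length = pos c by omega, u0 c (by omega), u0 _ (by omega)] at this
          simpa [← one_eq_mk, ori] using this
    have := pl (show c ≤ m by omega)
    have := pl c.zero_le
    rw [← G k c h (W.length - pos c).toNat (by omega)]
    refine u3 _ _ (by omega) (by change _ = (W.length : ℤ); omega) (by change ga W _ = 1; rw [ga, dr c k h, hc]) ?_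
    rcases le_or_gt c i0 with l | l
    · have := pl l; omega
    · have := pl (Nat.succ_le_of_lt l); simp only [Nat.succ_eq_add_one] at this; omega
  · obtain ⟨i, k, h⟩ := i3 x u5.1 u5.2.1 fun m => u5.nm (BS m)
    have := Txt.nw_inf (T := T) (u := u) (sg i) _ k (st i) h.2.2.1
    rw [← h.2.2.2, u7] at this
    refine ⟨i, h.1, ori (sg i) p, fun e => u6 ?_, by have := h.2.1; have := h.2.2.1; omega, ?_⟩
    · have := congrArg List.length e
      simpa [ori_len] using this
    · unfold ori at this ⊢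
      split_ifs at this ⊢
      exacts [this, inv_pw p e ▸ this]

end Pool.Agent.H.MP_874169_lc
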