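import Pool.Agent.H.MP_874169_lc.F

set_option autoImplicit false

namespace Pool.Agent.H.MP_874169_lc

open Function FreeGroup

variable {A Ω : Type}

open Classical in
noncomputable def dr : Option (Option (A × Bool)) → A × Bool → Option (Option (A × Bool))
  | none, _ => none
  | some none, a => some (some a)
  | some (some b), a => if b.1 = a.1 → b.2 = a.2 then some (some a) else none

theorem dr_none : ∀ w : List (A × Bool), act dr w none = none
  | [] => rfl
  | _ :: w => dr_none w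

theorem dr_some : ∀ (w : List (A × Bool)) (b : A × Bool), act dr w (some (some b)) ≠ none ↔ IsReduced (b :: w)
  | [], b => by simp [act]
  | a :: w, b => by
    rw [isReduced_cons_cons, ← dr_some w a]
    change act dr w (dr _ _) ≠ none ↔ _
    simp only [dr]
    split_ifs with h
    · exact (and_iff_right h).symm
    · simp [h, dr_none]

theorem dr_red : ∀ w : List (A × Bool), act dr w (some none) ≠ none ↔ IsReduced w
  | [] => by simp [act]
  | a :: w => dr_some w a

def ds {Q : Type} (M : DFA (A × Bool) Q) (P : Set Q) (a : A × Bool) : Set Q :=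
  {q | ∃ p ∈ P, ∃ w, FreeGroup.mk w = FreeGroup.mk [a] ∧ M.evalFrom p w = q}

theorem ds_sub {Q : Type} (M : DFA (A × Bool) Q) : ∀ (u : List (A × Bool)) (P : Set Q), ∀ q ∈ act (ds M) u P,
    ∃ p ∈ P, ∃ w, FreeGroup.mk w = FreeGroup.mk u ∧ M.evalFrom p w = q
  | [], _, q, h => ⟨q, h, [], rfl, rfl⟩
  | a :: u, P, q, h => by
    obtain ⟨_, ⟨p, hp, w, e, rfl⟩, w', e', rfl⟩ := ds_sub M u (ds M P a) q h
    exact ⟨p, hp, w ++ w', by rw [← mul_mk, e, e']; rfl, M.evalFrom_of_append ..⟩

theorem ds_sup {Q : Type} (M : DFA (A × Bool) Q) : ∀ (u w : List (A × Bool)) (P : Set Q) (p : Q), Red w u →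
    (∀ w0, FreeGroup.mk w0 = 1 → M.evalFrom p w0 ∈ P) → M.evalFrom p w ∈ act (ds M) u P
  | [], w, _, _, r, h => h w (Red.exact.2 ⟨_, r, .refl⟩)
  | a :: u, w, P, p, r, h => by
    obtain ⟨w1, w2, rfl, r1, r2⟩ := (Red.to_append_iff (L₁ := [a])).1 r
    rw [M.evalFrom_of_append]
    exact ds_sup M u w2 (ds M P a) _ r2 fun w0 e => ⟨p, h [] rfl, w1 ++ w0,
      by rw [← mul_mk, e, mul_one]; exact Red.exact.2 ⟨_, r1, .refl⟩, M.evalFrom_of_append ..⟩

theorem autom [Finite A] [Finite Ω] (l : Ω → Language (A × Bool)) (h : ∀ X, (l X).IsRegular) :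
    ∃ (S : Type) (_ : Fintype S) (δ : S → A × Bool → S), ∀ u v, IsReduced u → act δ v = act δ u →
      IsReduced v ∧ ∀ X, FreeGroup.mk u ∈ FreeGroup.mk '' (l X) → FreeGroup.mk v ∈ FreeGroup.mk '' (l X) := by
  classical
  choose Q iQ M hM using h
  let δ : (∀ X, Set (Q X)) × Option (Option (A × Bool)) → A × Bool → (∀ X, Set (Q X)) × Option (Option (A × Bool)) :=
    fun s a => (fun X => ds (M X) (s.1 X) a, dr s.2 a)
  have e : ∀ w s, act δ w s = (fun X => act (ds (M X)) w (s.1 X), act dr w s.2) := fun w => by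
    induction w with
    | nil => exact fun _ => rfl
    | cons a w ih => exact fun s => ih (δ s a)
  refine ⟨_, Fintype.ofFinite _, δ, fun u v r h => ?_⟩
  have h := congrFun h (fun X => {q | ∃ w, FreeGroup.mk w = 1 ∧ (M X).eval w = q}, some none)
  rw [e, e, Prod.mk.injEq] at h
  refine ⟨(dr_red v).1 (h.2 ▸ (dr_red u).2 r), ?_⟩
  rintro X ⟨w, hw, ew⟩
  have := ds_sup (M X) u w {q | ∃ w, FreeGroup.mk w = 1 ∧ (M X).eval w = q} (M X).start
    (by rw [← r.reduce_eq, ← reduce.sound ew]; exact reduce.red) fun w0 e => ⟨w0, e, rfl⟩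
  rw [← congrFun h.1 X] at this
  obtain ⟨_, ⟨w0, e0, rfl⟩, w', e', f⟩ := ds_sub _ _ _ _ this
  refine ⟨w0 ++ w', ?_, by rw [← mul_mk, e0, e', one_mul]⟩
  rw [← hM] at hw ⊢
  change (M X).evalFrom _ _ ∈ (M X).accept
  rw [DFA.evalFrom_of_append]
  exact f ▸ hw

theorem SP_ev (φ : FreeGroup (A ⊕ Ω) →* FreeGroup A) (sg : ℕ → ℤ) (Y : ℕ → List (A × Bool)) (d : (A ⊕ Ω) × Bool) :
    ∀ (w : List ((A ⊕ Ω) × Bool)) (c : ℕ), (∀ r < w.length, FreeGroup.mk (Y (c + r)) = φ (of (w.getD r d).1) ∧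
      sg (c + r) = if (w.getD r d).2 then 1 else -1) → FreeGroup.mk (SP sg Y c w.length) = φ (FreeGroup.mk w)
  | [], _, _ => by simp [SP, ← one_eq_mk]
  | (x, b) :: w, c, h => by
    have := h 0 (by simp)
    simp only [add_zero, List.getD_cons_zero] at this
    rw [List.length_cons, SP_succ, ← mul_mk, SP_ev φ sg Y d w, ← List.singleton_append, ← mul_mk, _root_.map_mul, this.2]
    · congr 1
      cases b
      · simp only [ori, Bool.false_eq_true, if_false, show ¬ (-1 : ℤ) = 1 by omega, ← inv_mk, this.1, ← _root_.map_inv]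
        rfl
      · exact this.1
    · intro r hr
      have := h (r + 1) (by simpa using hr)
      rwa [← add_assoc, add_right_comm] at this

theorem three {α : Type} (p : α → Bool) (w : List α) (d : α) (h : (w.filter p).length ≤ 2) {i j k : ℕ} (hi : i < w.length) (hj : j < w.length)
    (hk : k < w.length) (a : p (w.getD i d)) (b : p (w.getD j d)) (c : p (w.getD k d)) : i = j ∨ i = k ∨ j = k := by
  have e : ((Finset.range w.length).filter fun i => p (w.getD i d)).card = (w.filter p).length := by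
    conv_rhs => rw [← List.countP_eq_length_filter, ← List.map_getElem_finRange w, List.countP_map, List.countP_eq_length_filter]
    rw [← List.toFinset_card_of_nodup ((List.nodup_finRange _).filter _)]
    symm
    refine Finset.card_bij (fun i _ => i) (fun i hi => by simpa using hi) (fun _ _ _ _ => Fin.ext) fun i hi => ?_
    have := Finset.mem_range.1 (Finset.mem_filter.1 hi).1
    exact ⟨⟨i, this⟩, by simpa [this] using hi, rfl⟩
  by_contra! n
  exact (e ▸ h).not_gt (Finset.two_lt_card.2 ⟨i, by simp_all, j, by simp_all, k, by simp_all, n⟩)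

theorem main [Finite A] [Finite Ω] [DecidableEq A] [DecidableEq Ω] (W : FreeGroup (A ⊕ Ω))
    (hW : ∀ X, (W.toWord.filter fun x => x.1 = .inr X).length ≤ 2) (l : Ω → Language (A × Bool)) (hl : ∀ X, (l X).IsRegular) (e : ℕ) :
    ∃ K, ∀ σ : FreeGroup (A ⊕ Ω) →* FreeGroup A, (∀ a, σ (of (.inl a)) = of a) → σ W = 1 → (∀ X, σ (of (.inr X)) ∈ FreeGroup.mk '' (l X)) →
      ∀ X, K ≤ (σ (of (.inr X))).toWord.length → ∃ σ : FreeGroup (A ⊕ Ω) →* FreeGroup A, ((∀ a, σ (of (.inl a)) = of a) ∧ σ W = 1 ∧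
        ∀ X, σ (of (.inr X)) ∈ FreeGroup.mk '' (l X)) ∧ ∃ X p, p ≠ [] ∧ pw e p <:+: (σ (of (.inr X))).toWord := by
  classical
  obtain ⟨S, _, δ, hδ⟩ := autom l hl
  set w := W.toWord
  set m := w.length
  obtain ⟨K1, h1⟩ := core δ (m + m) e
  obtain ⟨K2, h2⟩ := core δ 2 e
  refine ⟨K1 + K2, fun σ s1 s2 s3 X hX => ?_⟩
  let g : ℕ → (A ⊕ Ω) × Bool := fun r => w.getD r (.inr X, true)
  suffices ∃ Z : Ω → List (A × Bool), (∀ X, act δ (Z X) = act δ (σ (of (.inr X))).toWord) ∧
      lift (Sum.elim of fun X => FreeGroup.mk (Z X)) W = 1 ∧ ∃ X p, p ≠ [] ∧ pw e p <:+: Z X by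
    obtain ⟨Z, z1, z2, X, p, z3, z4⟩ := this
    have := fun X => hδ _ _ isReduced_toWord (z1 X)
    refine ⟨_, ⟨by simp, z2, fun X => ?_⟩, X, p, z3, by simpa [(this X).1.reduce_eq] using z4⟩
    simpa using (this X).2 X (by simpa [mk_toWord] using s3 X)
  by_cases c : ∃ r < m, (g r).1 = .inr X
  swap
  · obtain ⟨Y', y1, -, i, hi, p, y2, -, y3⟩ := h2 (fun i => if i = 0 then 1 else -1) (fun _ => (σ (of (.inr X))).toWord) (fun i => 1 - i)
      (fun i hi => ⟨isReduced_toWord, by split_ifs <;> simp, fun _ => ⟨by omega, by omega, by omega, rfl⟩⟩) (by simp [SP, List.range', ori, ← mul_mk, ← inv_mk])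
      ⟨0, by omega, by omega⟩
    refine ⟨update (fun X => (σ (of (.inr X))).toWord) X (Y' i), fun Z => ?_, ?_, X, p, y2, by simpa using y3⟩
    · by_cases z : Z = X
      · simpa [z] using (y1 i hi).1
      · simp [z]
    · rw [← s2, ← mk_toWord (x := W), ← SP_ev σ (fun r => if (g r).2 then 1 else -1) (fun r => (σ (of (g r).1)).toWord) (.inr X, true) w 0
        fun r hr => by simp [g, mk_toWord], ← SP_ev _ (fun r => if (g r).2 then 1 else -1) (fun r => (σ (of (g r).1)).toWord) (.inr X, true) w 0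
        fun r hr => ⟨?_, by simp [g]⟩]
      simp only [zero_add, mk_toWord]
      change σ (of (g r).1) = lift _ (of (g r).1)
      rcases e : (g r).1 with a | Z
      · simp [s1]
      · simp [show Z ≠ X from fun z => c ⟨r, hr, z ▸ e⟩, mk_toWord]
  obtain ⟨ν, hν⟩ : ∃ ν : ℕ → ℕ, ∀ r < m, ∀ Z, (g r).1 = .inr Z → ν r < m ∧ (g (ν r)).1 = .inr Z ∧
      ∀ j < m, (g j).1 = .inr Z → j = r ∨ j = ν r ∧ ν j = r := by
    let ν : ℕ → ℕ := fun r => if h : ∃ j < m, j ≠ r ∧ (g j).1 = (g r).1 then h.choose else r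
    have n1 : ∀ r < m, ∀ j < m, ∀ Z, (g r).1 = .inr Z → (g j).1 = .inr Z → j ≠ r → ν r = j := fun r hr j hj Z a b n => by
      have ex : ∃ j < m, j ≠ r ∧ (g j).1 = (g r).1 := ⟨j, hj, n, b.trans a.symm⟩
      have := ex.choose_spec
      have := three _ w (.inr X, true) (hW Z) hr hj this.1 (decide_eq_true a) (decide_eq_true b)
        (decide_eq_true (this.2.2.trans a))
      simp only [ν, dif_pos ex]
      omega
    refine ⟨ν, fun r hr Z a => ⟨?_, ?_, fun j hj b => or_iff_not_imp_left.2 fun n =>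
      ⟨(n1 r hr j hj Z a b n).symm, n1 j hj r hr Z b a (Ne.symm n)⟩⟩⟩ <;> simp only [ν] <;> split_ifs with h
    exacts [h.choose_spec.1, hr, h.choose_spec.2.2.trans a, a]
  let rr : ℕ → ℕ := fun i => if i < m then i else i - m
  have var : ∀ r, 1 < (σ (of (g r).1)).toWord.length → ∃ Z, (g r).1 = .inr Z := fun r h => by
    rcases e : (g r).1 with a | Z
    · simp [e, s1] at h
    · exact ⟨Z, rfl⟩
  have ev : ∀ b, b = 0 ∨ b = m → ∀ r < m, rr (b + r) = r := by rintro b (rfl | rfl) r hr <;> simp [rr, hr]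
  have e0 : ∀ b, b = 0 ∨ b = m → FreeGroup.mk (SP (fun i => if (g (rr i)).2 then 1 else -1) (fun i => (σ (of (g (rr i)).1)).toWord) b m) = 1 :=
    fun b hb => by rw [SP_ev σ _ _ (.inr X, true) w b fun r hr => by simp [ev b hb r hr, g, mk_toWord], mk_toWord, s2]
  obtain ⟨Y', y1, y2, i, hi, p, y3, y4, y5⟩ := h1 (fun i => if (g (rr i)).2 then 1 else -1) (fun i => (σ (of (g (rr i)).1)).toWord)
    (fun i => if ν (rr i) = rr i then (if i < m then i + m else i - m) else i - rr i + ν (rr i))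
    (fun i hi => ⟨isReduced_toWord, by split_ifs <;> simp, fun h => by
      obtain ⟨Z, hZ⟩ := var _ h
      obtain ⟨b, r, hb, hr, rfl⟩ : ∃ b r, (b = 0 ∨ b = m) ∧ r < m ∧ i = b + r := by
        by_cases k : i < m
        exacts [⟨0, i, .inl rfl, k, by omega⟩, ⟨m, i - m, .inr rfl, by omega, by omega⟩]
      simp only [ev b hb r hr] at hZ ⊢
      obtain ⟨n1, n2, n3⟩ := hν r hr Z hZ
      by_cases k : ν r = r
      · rcases hb with rfl | rfl
        · have := ev m (.inr rfl) r hr
          rw [add_comm] at this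
          simp [k, hr, this]
          omega
        · have := ev 0 (.inl rfl) r hr
          rw [zero_add] at this
          simp [k, hr, this]
          omega
      · have := ((n3 _ n1 n2).resolve_left k).2
        simp only [if_neg k, Nat.add_sub_cancel, ev b hb _ n1, this, if_neg (Ne.symm k), n2, hZ, and_true]
        omega⟩)
    (by rw [SP_add, ← mul_mk, e0 0 (.inl rfl), zero_add, e0 m (.inr rfl), one_mul])
    (by obtain ⟨r, hr, c⟩ := c; exact ⟨r, by omega, by simp only [rr, if_pos hr, c]; omega⟩)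
  obtain ⟨b, r, hb, hr, rfl⟩ : ∃ b r, (b = 0 ∨ b = m) ∧ r < m ∧ i = b + r := by
    by_cases k : i < m
    exacts [⟨0, i, .inl rfl, k, by omega⟩, ⟨m, i - m, .inr rfl, by omega, by omega⟩]
  let Z : Ω → List (A × Bool) := fun X => if h : ∃ r < m, (g r).1 = .inr X then Y' (b + h.choose) else (σ (of (.inr X))).toWord
  have hZ : ∀ r < m, ∀ X, (g r).1 = .inr X → Z X = Y' (b + r) := fun r hr X a => by
    have ex : ∃ r < m, (g r).1 = .inr X := ⟨r, hr, a⟩
    obtain ⟨j1, j2⟩ := ex.choose_spec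
    simp only [Z, dif_pos ex]
    generalize ex.choose = j at *
    by_cases k : j = r
    · rw [k]
    have n := ((hν r hr X a).2.2 j j1 j2).resolve_left k
    have t1 := (y1 (b + r) (by omega)).2
    have t2 := (y1 (b + j) (by omega)).2.1
    simp only [ev b hb r hr, ev b hb j j1, a, j2, ← n.1, if_neg k, Nat.add_sub_cancel] at t1 t2
    rcases le_or_gt (σ (of (.inr X))).toWord.length 1 with t | t
    exacts [(t2 t).trans (t1.1 t).symm, t1.2 t]
  obtain ⟨X', hX'⟩ := var _ y4
  rw [ev b hb r hr] at hX'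
  refine ⟨Z, fun X => ?_, ?_, X', p, y3, hZ r hr X' hX' ▸ y5⟩
  · by_cases ex : ∃ r < m, (g r).1 = .inr X
    · obtain ⟨r, hr, a⟩ := ex
      have := (y1 (b + r) (by omega)).1
      rwa [ev b hb r hr, a, ← hZ r hr X a] at this
    · simp only [Z, dif_neg ex]
  · rw [← mk_toWord (x := W), ← SP_ev _ (fun i => if (g (rr i)).2 then 1 else -1) Y' (.inr X, true) w b fun r hr =>
      ⟨?_, by simp [ev b hb r hr, g]⟩]
    · have t := y2 m m rfl (e0 m (.inr rfl))
      rcases hb with rfl | rfl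
      · have := y2 (m + m) 0 (by omega) (by rw [SP_add, ← mul_mk, e0 0 (.inl rfl), zero_add, e0 m (.inr rfl), one_mul])
        rwa [SP_add, ← mul_mk, zero_add, t, mul_one] at this
      · exact t
    · change _ = lift _ (of (g r).1)
      rcases e : (g r).1 with a | X
      · have := (y1 (b + r) (by omega)).2.1
        simp only [ev b hb r hr, e, s1] at this
        simp [this (by simp)]
        rfl
      · simp [hZ r hr X e]

end Pool.Agent.H.MP_874169_lc
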